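import Pool.Agent.H68.BD.Bas

set_option autoImplicit false

/-!
# Module CnA: counting, first part

`sum_lev_erase`: bijection `(B, k) -> (B.erase k, k)`, inverse `(A, k) -> (insert k A, k)`: `Finset.sum_sigma'` and
`Finset.sum_bij'` (or `sum_nbij'`), with `mem_lev`, `card_erase_of_mem`, `card_insert_of_notMem`, `insert_erase`,
`erase_insert`.
`qin_compl`: `∑ k, qin w k A = ∑ j ∈ A, ∑ k, w k j = |A| q` (`sum_comm`) and `∑ k ∈ A, qin w k A = wt w A`
(`sum_comm`), `Finset.sum_add_sum_compl`.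
`qin_erase`: `qin w k (B.erase k) = qin w k B` because `w k k = 0` (`Finset.add_sum_erase`), then `sum_comm`.
`wt_le`: `∑ k ∈ B, w k j ≤ ∑ k, w k j = q`.
-/

open Finset

namespace Pool.Agent.H68.BD

open Pool.Agent.H78.Bass

variable {M : ℕ} {p q a : ℝ} {w : Fin M → Fin M → ℝ}

theorem sum_lev_erase (f : Fin M → Finset (Fin M) → ℝ) (m : ℕ) :
    ∑ B ∈ lev M (m + 1), ∑ k ∈ B, f k (B.erase k) = ∑ A ∈ lev M m, ∑ k ∈ Aᶜ, f k A := by
  rw [Finset.sum_sigma', Finset.sum_sigma']
  refine Finset.sum_bij'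
    (fun x _ => (⟨x.1.erase x.2, x.2⟩ : (_ : Finset (Fin M)) × Fin M))
    (fun y _ => (⟨insert y.2 y.1, y.2⟩ : (_ : Finset (Fin M)) × Fin M)) ?_ ?_ ?_ ?_ ?_
  · rintro ⟨B, k⟩ h
    rw [Finset.mem_sigma, mem_lev] at h
    obtain ⟨h1, h2⟩ := h
    rw [Finset.mem_sigma, mem_lev]
    have h2' : k ∈ B := h2
    have h1' : B.card = m + 1 := h1
    refine ⟨?_, ?_⟩
    · change (B.erase k).card = m
      rw [Finset.card_erase_of_mem h2', h1']
      rfl
    · change k ∈ (B.erase k)ᶜ
      simp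
  · rintro ⟨A, k⟩ h
    rw [Finset.mem_sigma, mem_lev] at h
    obtain ⟨h1, h2⟩ := h
    rw [Finset.mem_sigma, mem_lev]
    have h2' : k ∉ A := by simpa using h2
    have h1' : A.card = m := h1
    refine ⟨?_, ?_⟩
    · change (insert k A).card = m + 1
      rw [Finset.card_insert_of_notMem h2', h1']
    · change k ∈ insert k A
      exact Finset.mem_insert_self k A
  · rintro ⟨B, k⟩ h
    rw [Finset.mem_sigma, mem_lev] at h
    have h2' : k ∈ B := h.2
    change (⟨insert k (B.erase k), k⟩ : (_ : Finset (Fin M)) × Fin M) = ⟨B, k⟩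
    rw [Finset.insert_erase h2']
  · rintro ⟨A, k⟩ h
    rw [Finset.mem_sigma, mem_lev] at h
    have h2' : k ∉ A := by simpa using h.2
    change (⟨(insert k A).erase k, k⟩ : (_ : Finset (Fin M)) × Fin M) = ⟨A, k⟩
    rw [Finset.erase_insert h2']
  · rintro ⟨B, k⟩ h
    rfl

theorem qin_nonneg (hw : IsHomogeneous q w) (k : Fin M) (A : Finset (Fin M)) : 0 ≤ qin w k A := by
  unfold qin
  exact Finset.sum_nonneg fun j _ => hw.nonneg k j

theorem qin_compl (hw : IsHomogeneous q w) (A : Finset (Fin M)) :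
    ∑ k ∈ Aᶜ, qin w k A = (A.card : ℝ) * q - wt w A := by
  have h1 : ∑ k : Fin M, qin w k A = (A.card : ℝ) * q := by
    unfold qin
    rw [Finset.sum_comm]
    rw [Finset.sum_congr rfl fun j _ => hw.sum j]
    rw [Finset.sum_const, nsmul_eq_mul]
  have h2 : ∑ k ∈ A, qin w k A = wt w A := by
    unfold qin wt
    rw [Finset.sum_comm]
  have h3 := Finset.sum_add_sum_compl A (fun k => qin w k A)
  linarith

theorem qin_erase (hw : IsHomogeneous q w) (B : Finset (Fin M)) :
    ∑ k ∈ B, qin w k (B.erase k) = wt w B := by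
  have h1 : ∀ k ∈ B, qin w k (B.erase k) = qin w k B := by
    intro k hk
    unfold qin
    rw [← Finset.add_sum_erase B (fun j => w k j) hk, hw.diag k, zero_add]
  rw [Finset.sum_congr rfl h1]
  unfold qin wt
  rw [Finset.sum_comm]

theorem wt_nonneg (hw : IsHomogeneous q w) (B : Finset (Fin M)) : 0 ≤ wt w B := by
  unfold wt
  exact Finset.sum_nonneg fun j _ => Finset.sum_nonneg fun k _ => hw.nonneg k j

theorem wt_le (hw : IsHomogeneous q w) (B : Finset (Fin M)) : wt w B ≤ (B.card : ℝ) * q := by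
  have h1 : ∀ j ∈ B, ∑ k ∈ B, w k j ≤ q := by
    intro j _
    rw [← hw.sum j]
    exact Finset.sum_le_sum_of_subset_of_nonneg (Finset.subset_univ B) fun k _ _ => hw.nonneg k j
  unfold wt
  refine (Finset.sum_le_sum h1).trans ?_
  rw [Finset.sum_const, nsmul_eq_mul]

theorem exc_eq (B : Finset (Fin M)) : exc a w B = wt w B - wm a B.card := by
  unfold exc wm
  ring

end Pool.Agent.H68.BD
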