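import Pool.Agent.H68.BD.Bas
import Pool.Agent.H68.BD.MuA
import Pool.Agent.H68.BD.CnA

/-!
# Module MuB: sign of the law of the backward cluster

`mu_empty`: for `B = ∅` the equation is `mu' = 0` (`phi = 0`, `wt = 0`), `mu_zero`.
`mu_single`: `phi = 0` for `B = {j}` (`qin w k ∅ = 0`), `wt w {j} = w j j = 0`, so `mu' = -(p+q) mu`; the function
`mu s {j} * exp ((p+q) s)` has derivative zero.
`mu_nonneg`: strong induction on `B.card`: `phi ≥ 0` for `s ≥ 0`, `compare` with `c = |B| (p+q) - wt w B`.
`mu_dich`: strong induction on `B.card`. `|B| = 0`: zero. `|B| = 1`: positive. `|B| ≥ 2`: if `qin w k (B.erase k) = 0` or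
`mu = 0` (first alternative) for every `k ∈ B` then `phi = 0` for `s ≥ 0` and `mu' = -c mu` on `s ≥ 0`, `mu 0 = 0`, so `mu = 0`
(`compare` for `mu` and `-mu`; `compare` only needs the inequality for `t ≥ 0`). Otherwise `phi > 0` for `s > 0` and
`compare_strict`.
-/

set_option autoImplicit false

open Finset

namespace Pool.Agent.H68.BD

open Pool.Agent.H78.Bass

variable {M : ℕ} {p q a : ℝ} {w : Fin M → Fin M → ℝ}

private theorem MuB_const {f : ℝ → ℝ} (h : ∀ s, HasDerivAt f 0 s) (s : ℝ) : f s = f 0 :=
  is_const_of_deriv_eq_zero (fun x => (h x).differentiableAt) (fun x => (h x).deriv) s 0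

theorem mu_empty (p q : ℝ) (w : Fin M → Fin M → ℝ) (s : ℝ) : mu p q w s ∅ = 0 := by
  have h1 : ∀ r, HasDerivAt (fun r => mu p q w r ∅) 0 r := by
    intro r
    have h := mu_hasDeriv p q w r ∅
    have e : (-(((∅ : Finset (Fin M)).card : ℝ) * (p + q) - wt w ∅) * mu p q w r ∅ +
        phi p q w r ∅) = 0 := by
      simp [wt, phi]
    rwa [e] at h
  have h2 : mu p q w s ∅ = mu p q w 0 ∅ := MuB_const h1 s
  rw [h2, mu_zero]
  simp

theorem mu_single (hw : IsHomogeneous q w) (p s : ℝ) (j : Fin M) :
    mu p q w s {j} = Real.exp (-(p + q) * s) / M := by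
  have h1 : ∀ r, HasDerivAt (fun r => mu p q w r {j} * Real.exp ((p + q) * r)) 0 r := by
    intro r
    have h := mu_hasDeriv p q w r {j}
    have e : (-((({j} : Finset (Fin M)).card : ℝ) * (p + q) - wt w {j}) * mu p q w r {j} +
        phi p q w r {j}) = -(p + q) * mu p q w r {j} := by
      simp [wt, phi, qin, hw.diag]
    rw [e] at h
    have h2 : HasDerivAt (fun r => Real.exp ((p + q) * r))
        (Real.exp ((p + q) * r) * ((p + q) * 1)) r :=
      ((hasDerivAt_id r).const_mul (p + q)).exp
    have h3 := h.mul h2
    have e2 : -(p + q) * mu p q w r {j} * Real.exp ((p + q) * r) +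
        mu p q w r {j} * (Real.exp ((p + q) * r) * ((p + q) * 1)) = 0 := by ring
    rw [e2] at h3
    exact h3
  have h2 : mu p q w s {j} * Real.exp ((p + q) * s) = mu p q w 0 {j} * Real.exp ((p + q) * 0) :=
    MuB_const h1 s
  rw [mu_zero] at h2
  simp only [card_singleton, if_true, mul_zero, Real.exp_zero, mul_one] at h2
  have h3 : Real.exp (-(p + q) * s) * Real.exp ((p + q) * s) = 1 := by
    rw [← Real.exp_add]
    have : -(p + q) * s + (p + q) * s = 0 := by ring
    rw [this, Real.exp_zero]
  calc mu p q w s {j} = mu p q w s {j} * (Real.exp (-(p + q) * s) * Real.exp ((p + q) * s)) := by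
        rw [h3, mul_one]
    _ = Real.exp (-(p + q) * s) * (mu p q w s {j} * Real.exp ((p + q) * s)) := by ring
    _ = Real.exp (-(p + q) * s) / M := by rw [h2]; ring

private theorem MuB_zero_nonneg (p q : ℝ) (w : Fin M → Fin M → ℝ) (B : Finset (Fin M)) :
    0 ≤ mu p q w 0 B := by
  rw [mu_zero]
  split_ifs
  · positivity
  · exact le_rfl

private theorem MuB_aux (hw : IsHomogeneous q w) (p : ℝ) (n : ℕ) :
    ∀ B : Finset (Fin M), B.card = n → ∀ s, 0 ≤ s → 0 ≤ mu p q w s B := by
  induction n using Nat.strong_induction_on with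
  | _ n ih =>
    intro B hB s hs
    have hphi : ∀ t, 0 ≤ t → 0 ≤ phi p q w t B := by
      intro t ht
      unfold phi
      refine sum_nonneg fun k hk => mul_nonneg (qin_nonneg hw k _) ?_
      have h1 : (B.erase k).card < n := by
        rw [← hB]
        exact card_erase_lt_of_mem hk
      exact ih _ h1 (B.erase k) rfl t ht
    refine compare (f := fun r => mu p q w r B)
      (f' := fun r => -((B.card : ℝ) * (p + q) - wt w B) * mu p q w r B + phi p q w r B)
      (c := (B.card : ℝ) * (p + q) - wt w B) (fun t => mu_hasDeriv p q w t B) ?_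
      (MuB_zero_nonneg p q w B) hs
    intro t ht
    have := hphi t ht
    linarith

theorem mu_nonneg (hw : IsHomogeneous q w) (p : ℝ) {s : ℝ} (hs : 0 ≤ s) (B : Finset (Fin M)) :
    0 ≤ mu p q w s B := MuB_aux hw p B.card B rfl s hs

theorem phi_nonneg (hw : IsHomogeneous q w) (p : ℝ) {s : ℝ} (hs : 0 ≤ s) (B : Finset (Fin M)) :
    0 ≤ phi p q w s B := by
  unfold phi
  exact sum_nonneg fun k _ => mul_nonneg (qin_nonneg hw k _) (mu_nonneg hw p hs _)

private theorem MuB_dich (H : Hyp p q a w) (n : ℕ) :
    ∀ B : Finset (Fin M), B.card = n →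
      ((∀ s, 0 ≤ s → mu p q w s B = 0) ∨ ∀ s, 0 < s → 0 < mu p q w s B) := by
  induction n using Nat.strong_induction_on with
  | _ n ih =>
    intro B hB
    have hM : (0 : ℝ) < M := by
      have h := H.hM
      have : 0 < M := by omega
      exact_mod_cast this
    rcases Nat.lt_or_ge n 2 with hn | hn
    · interval_cases n
      · left
        intro s _
        rw [card_eq_zero.1 hB]
        exact mu_empty p q w s
      · right
        intro s _
        obtain ⟨j, hj⟩ := card_eq_one.1 hB
        rw [hj, mu_single H.hw]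
        exact div_pos (Real.exp_pos _) hM
    · have h0 : mu p q w 0 B = 0 := by
        rw [mu_zero, if_neg (by omega)]
      by_cases hh : ∀ k ∈ B, qin w k (B.erase k) = 0 ∨ ∀ s, 0 ≤ s → mu p q w s (B.erase k) = 0
      · left
        have hphi : ∀ t, 0 ≤ t → phi p q w t B = 0 := by
          intro t ht
          unfold phi
          refine sum_eq_zero fun k hk => ?_
          rcases hh k hk with h | h
          · rw [h, zero_mul]
          · rw [h t ht, mul_zero]
        intro s hs
        apply le_antisymm
        · have h1 : 0 ≤ -mu p q w s B := by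
            refine compare (f := fun r => -mu p q w r B)
              (f' := fun r => -(-((B.card : ℝ) * (p + q) - wt w B) * mu p q w r B + phi p q w r B))
              (c := (B.card : ℝ) * (p + q) - wt w B) (fun t => (mu_hasDeriv p q w t B).neg) ?_
              (by rw [h0]; simp) hs
            intro t ht
            have := hphi t ht
            rw [this]
            linarith
          linarith
        · exact mu_nonneg H.hw p hs B
      · right
        push Not at hh
        obtain ⟨k, hk, hq, s₀, hs₀, hne⟩ := hh
        have h1 : (B.erase k).card < n := by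
          rw [← hB]
          exact card_erase_lt_of_mem hk
        have h2 : ∀ s, 0 < s → 0 < mu p q w s (B.erase k) := by
          rcases ih _ h1 (B.erase k) rfl with h | h
          · exact absurd (h s₀ hs₀) hne
          · exact h
        have hphi : ∀ t, 0 < t → 0 < phi p q w t B := by
          intro t ht
          unfold phi
          refine sum_pos' (fun l _ => mul_nonneg (qin_nonneg H.hw l _)
            (mu_nonneg H.hw p ht.le _)) ⟨k, hk, ?_⟩
          exact mul_pos (lt_of_le_of_ne (qin_nonneg H.hw k _) (Ne.symm hq)) (h2 t ht)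
        intro s hs
        refine compare_strict (f := fun r => mu p q w r B)
          (f' := fun r => -((B.card : ℝ) * (p + q) - wt w B) * mu p q w r B + phi p q w r B)
          (c := (B.card : ℝ) * (p + q) - wt w B) (fun t => mu_hasDeriv p q w t B) ?_
          (MuB_zero_nonneg p q w B) hs
        intro t ht
        have := hphi t ht
        linarith

theorem mu_dich (H : Hyp p q a w) (B : Finset (Fin M)) :
    (∀ s, 0 ≤ s → mu p q w s B = 0) ∨ ∀ s, 0 < s → 0 < mu p q w s B :=
  MuB_dich H B.card B rfl

end Pool.Agent.H68.BD
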