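import Pool.Agent.H68.BD.Bas
import Pool.Agent.H68.BD.PpA

set_option autoImplicit false

/-!
# Module PpB: bounds for the law of the complete network

`pp_mono`: induction on `m ≥ 2`. `D = wm m pp (m-1) - (lm m - (p+q)) pp m`. By the equation of `pp m` and
`(pp (m-1))' ≥ -(p+q) pp (m-1)` (for `m = 2` equality, `pp_hasDeriv_one`; for `m ≥ 3` this is `pp_mono` for `m - 1`),
`D' ≥ -(p+q) wm pp (m-1) - (lm - (p+q)) (-lm pp m + wm pp (m-1)) = -lm D`, and `D 0 ≥ 0` (`pp m 0 = 0`, `pp (m-1) 0 ≥ 0`): `compare`.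
`pp_le`: `lm m - (p+q) ≥ (m-1) p - q > 0` (`H.lm_sub`, `H.mp_pos`).
`pp_four`: `pp m ≤ wm/((m-1)p-q) pp (m-1)`, so the left side is `≤ 4 wm^2/(m p ((m-1)p-q)) (pp (m-1)/wm)`, `wm ≤ m q` (`H.wm_le`),
`q ≤ p/10`, `(m-1)p-q ≥ (m-1) (19/20) p`: `4 m q^2/(p (m-1) (19/20) p) ≤ 4 * (3/2) * (1/100) * (20/19) ≤ 2/25`.
`pp_ratio`: induction on `m ≥ 3`; `m = 3`: `(2!)/2 = 1`. Step `m -> m+1`: `pp m ≤ wm m/((m-1)p-q) pp (m-1)`, and
`wm m/((m-1)p-q) ≤ m (m-1) a/((m-1)(p-q/2)) = m a/(p-q/2)` because `m - 1 ≥ 2`.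
-/

open Finset

namespace Pool.Agent.H68.BD

open Pool.Agent.H78.Bass

variable {M : ℕ} {p q a : ℝ} {w : Fin M → Fin M → ℝ}

/-- the derivative of `pp m` is at least `-(p+q) pp m`, if `pp_mono` is known below `m` -/
private theorem PpB_step (H : Hyp p q a w) {m : ℕ} (h2 : 2 ≤ m)
    (d : ℝ → ℝ) (hd : ∀ t, HasDerivAt (pp p q a M (m - 1)) (d t) t)
    (hge : ∀ t, 0 ≤ t → -(p + q) * pp p q a M (m - 1) t ≤ d t) {s : ℝ} (hs : 0 ≤ s) :
    (lm p q a m - (p + q)) * pp p q a M m s ≤ wm a m * pp p q a M (m - 1) s := by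
  have hw : 0 < wm a m := H.wm_pos h2
  have hf : ∀ t, HasDerivAt
      (fun t => wm a m * pp p q a M (m - 1) t - (lm p q a m - (p + q)) * pp p q a M m t)
      (wm a m * d t - (lm p q a m - (p + q)) *
        (-(lm p q a m) * pp p q a M m t + wm a m * pp p q a M (m - 1) t)) t := by
    intro t
    exact ((hd t).const_mul _).sub ((pp_hasDeriv p q a M h2 t).const_mul _)
  have h0 : 0 ≤ wm a m * pp p q a M (m - 1) 0 - (lm p q a m - (p + q)) * pp p q a M m 0 := by
    rw [pp_zero p q a M h2, mul_zero, sub_zero]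
    exact mul_nonneg hw.le (pp_nonneg H (by omega) le_rfl)
  have key := compare (c := lm p q a m) hf (fun t ht => by
    have h1 := mul_le_mul_of_nonneg_left (hge t ht) hw.le
    linarith) h0 hs
  linarith

theorem pp_mono (H : Hyp p q a w) {m : ℕ} (h2 : 2 ≤ m) (hm : m ≤ M) {s : ℝ} (hs : 0 ≤ s) :
    (lm p q a m - (p + q)) * pp p q a M m s ≤ wm a m * pp p q a M (m - 1) s := by
  induction m, h2 using Nat.le_induction generalizing s with
  | base =>
    refine PpB_step H le_rfl (fun t => -(p + q) * pp p q a M 1 t)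
      (fun t => pp_hasDeriv_one p q a M t) (fun t _ => le_rfl) hs
  | succ m h2 ih =>
    refine PpB_step H (m := m + 1) (by omega) (fun t => -(lm p q a m) * pp p q a M m t +
      wm a m * pp p q a M (m - 1) t) (fun t => pp_hasDeriv p q a M h2 t) ?_ hs
    intro t ht
    have h1 := ih (by omega) ht
    have h3 : m + 1 - 1 = m := by omega
    rw [h3]
    linarith

theorem pp_le (H : Hyp p q a w) {m : ℕ} (h2 : 2 ≤ m) (hm : m ≤ M) {s : ℝ} (hs : 0 ≤ s) :
    pp p q a M m s ≤ wm a m / (((m : ℝ) - 1) * p - q) * pp p q a M (m - 1) s := by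
  have h1 := H.mp_pos h2
  have h3 := H.lm_sub hm
  have h4 := pp_mono H h2 hm hs
  have h5 : 0 ≤ pp p q a M m s := pp_nonneg H (by omega) hs
  have h6 := mul_le_mul_of_nonneg_right h3 h5
  rw [div_mul_eq_mul_div, le_div_iff₀ h1]
  linarith

theorem pp_four (H : Hyp p q a w) {m : ℕ} (h3 : 3 ≤ m) (hm : m ≤ M) {s : ℝ} (hs : 0 ≤ s) :
    4 * pp p q a M m s / ((m : ℝ) * p) ≤ 2 / 25 * (pp p q a M (m - 1) s / wm a m) := by
  have h2 : 2 ≤ m := by omega
  have hw := H.wm_pos h2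
  have hd := H.mp_pos h2
  have hwl := H.wm_le hm
  have hp := H.hp
  have hq := H.hq
  have hpq := H.hpq
  have hm3 : (3 : ℝ) ≤ (m : ℝ) := by exact_mod_cast h3
  have hmpos : (0 : ℝ) < m := by linarith
  have hmp : 0 < (m : ℝ) * p := mul_pos hmpos hp
  have h5 : 0 ≤ pp p q a M (m - 1) s := pp_nonneg H (by omega) hs
  have h6 := pp_le H h2 hm hs
  have hkey : 4 * wm a m ^ 2 ≤ 2 / 25 * (((m : ℝ) * p) * (((m : ℝ) - 1) * p - q)) := by
    have e1 : wm a m ^ 2 ≤ ((m : ℝ) * q) ^ 2 := by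
      exact pow_le_pow_left₀ hw.le hwl 2
    have e2 : (10 * q) ^ 2 ≤ p ^ 2 := pow_le_pow_left₀ (by positivity) hpq 2
    have e3 : (m : ℝ) ^ 2 * ((10 * q) ^ 2) ≤ (m : ℝ) ^ 2 * p ^ 2 :=
      mul_le_mul_of_nonneg_left e2 (by positivity)
    have e4 : (m : ℝ) * p * (10 * q) ≤ (m : ℝ) * p * p :=
      mul_le_mul_of_nonneg_left hpq hmp.le
    have e5 : (m : ℝ) * p ^ 2 * 3 ≤ (m : ℝ) * p ^ 2 * m :=
      mul_le_mul_of_nonneg_left hm3 (by positivity)
    nlinarith
  calc 4 * pp p q a M m s / ((m : ℝ) * p)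
      ≤ 4 * (wm a m / (((m : ℝ) - 1) * p - q) * pp p q a M (m - 1) s) / ((m : ℝ) * p) := by
        gcongr
    _ ≤ 2 / 25 * (pp p q a M (m - 1) s / wm a m) := by
        rw [div_mul_eq_mul_div, ← mul_div_assoc, div_div, ← mul_div_assoc,
          div_le_div_iff₀ (mul_pos hd hmp) hw]
        have h7 := mul_le_mul_of_nonneg_right hkey h5
        nlinarith

theorem pp_ratio (H : Hyp p q a w) {m : ℕ} (h3 : 3 ≤ m) (hm : m ≤ M) {s : ℝ} (hs : 0 ≤ s) :
    pp p q a M (m - 1) s ≤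
      (a / (p - q / 2)) ^ (m - 3) * (((m - 1).factorial : ℝ) / 2) * pp p q a M 2 s := by
  have hp := H.hp
  have hq := H.hq
  have hpq := H.hpq
  have ha := H.a_pos
  have hd : 0 < p - q / 2 := by linarith
  induction m, h3 using Nat.le_induction with
  | base => simp
  | succ m h3 ih =>
    have ih' := ih (by omega)
    have h2 : 2 ≤ m := by omega
    have hm3 : (3 : ℝ) ≤ (m : ℝ) := by exact_mod_cast h3
    have h6 := pp_le H h2 (by omega : m ≤ M) hs
    have h5 : 0 ≤ pp p q a M (m - 1) s := pp_nonneg H (by omega) hs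
    have hmp := H.mp_pos h2
    have h7 : wm a m / (((m : ℝ) - 1) * p - q) ≤ (m : ℝ) * (a / (p - q / 2)) := by
      rw [← mul_div_assoc, div_le_div_iff₀ hmp hd]
      unfold wm
      have e1 : ((m : ℝ) - 1) * (p - q / 2) ≤ ((m : ℝ) - 1) * p - q := by nlinarith
      have e2 : 0 ≤ (m : ℝ) * a := by positivity
      have e3 := mul_le_mul_of_nonneg_left e1 e2
      linarith
    have e1 : m + 1 - 1 = m := by omega
    have e2 : m + 1 - 3 = (m - 3) + 1 := by omega
    have e3 : (m.factorial : ℝ) = (m : ℝ) * ((m - 1).factorial : ℝ) := by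
      rw [← Nat.mul_factorial_pred (by omega : m ≠ 0)]
      push_cast
      ring
    rw [e1, e2, e3]
    calc pp p q a M m s
        ≤ wm a m / (((m : ℝ) - 1) * p - q) * pp p q a M (m - 1) s := h6
      _ ≤ ((m : ℝ) * (a / (p - q / 2))) * pp p q a M (m - 1) s :=
          mul_le_mul_of_nonneg_right h7 h5
      _ ≤ ((m : ℝ) * (a / (p - q / 2))) *
          ((a / (p - q / 2)) ^ (m - 3) * (((m - 1).factorial : ℝ) / 2) * pp p q a M 2 s) := by
          apply mul_le_mul_of_nonneg_left ih'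
          positivity
      _ = _ := by
          rw [pow_succ]
          ring

end Pool.Agent.H68.BD
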