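import Pool.Agent.H68.BD.Bas
import Pool.Agent.H68.BD.MuB
import Pool.Agent.H68.BD.PpB
import Pool.Agent.H68.BD.CnB
import Pool.Agent.H68.BD.PsB

set_option autoImplicit false

/-!
# Module Chn: the chain inequalities

Let `s > 0`, `P = pp (m-1) s > 0`, `u = wm a m`. For `B ∈ lev M m` apply `chain_real`, `src_real` with `S = B`, `c k = qin w k (B.erase k)` (`∑ = wt w B`,
`qin_erase`; `wt w B - u = exc a w B`, `exc_eq`), `x k = mu s (B.erase k)/P`, so `(∑ c k x k)/u = phi s B/(u P)`. Multiply by `u P`: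
`exc (phi s B - u P) + u P ∑ c k ps (x k) ≥ 0`, sum over `B`: `∑ exc = 0` (`exc_lev`), and (`sum_lev_erase`, `m = (m-1)+1`)
`∑ B, ∑ k ∈ B, c k P ps (x k) = ∑ A ∈ lev M (m-1), (∑ k ∈ Aᶜ, qin w k A) P ps (mu s A/P) ≤ (m-1) q ent (m-1) s` (`qin_compl`, `wt_nonneg`, `ps_nonneg`). This
is `chn`; `src` in the same way.
-/

open Finset

namespace Pool.Agent.H68.BD

open Pool.Agent.H78.Bass

variable {M : ℕ} {p q a : ℝ} {w : Fin M → Fin M → ℝ}

/-- the entropy source of one set -/
private noncomputable def Chn_S (p q a : ℝ) (w : Fin M → Fin M → ℝ) (m : ℕ) (s : ℝ)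
    (B : Finset (Fin M)) : ℝ :=
  ∑ k ∈ B, qin w k (B.erase k) * ps (mu p q w s (B.erase k) / pp p q a M (m - 1) s)

private theorem Chn_sum (H : Hyp p q a w) {m : ℕ} (h2 : 2 ≤ m) {s : ℝ} (hs : 0 < s) :
    pp p q a M (m - 1) s * ∑ B ∈ lev M m, Chn_S p q a w m s B ≤
      ((m : ℝ) - 1) * q * ent p q a w (m - 1) s := by
  have hP : 0 < pp p q a M (m - 1) s := pp_pos H (by omega) hs
  have h1 : ∑ B ∈ lev M m, Chn_S p q a w m s B =
      ∑ A ∈ lev M (m - 1), ∑ k ∈ Aᶜ, qin w k A * ps (mu p q w s A / pp p q a M (m - 1) s) := by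
    have h := sum_lev_erase (M := M)
      (fun k A => qin w k A * ps (mu p q w s A / pp p q a M (m - 1) s)) (m - 1)
    rw [show m - 1 + 1 = m by omega] at h
    exact h
  have h3 : ∀ A ∈ lev M (m - 1),
      ∑ k ∈ Aᶜ, qin w k A * ps (mu p q w s A / pp p q a M (m - 1) s) ≤
        ((m : ℝ) - 1) * q * ps (mu p q w s A / pp p q a M (m - 1) s) := by
    intro A hA
    have hc := mem_lev.1 hA
    rw [← sum_mul, qin_compl H.hw A, hc]
    have h4 : ((m - 1 : ℕ) : ℝ) = (m : ℝ) - 1 := by
      rw [Nat.cast_sub (by omega)]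
      norm_num
    rw [h4]
    have h5 := wt_nonneg H.hw A
    have h6 : 0 ≤ ps (mu p q w s A / pp p q a M (m - 1) s) :=
      ps_nonneg (div_nonneg (mu_nonneg H.hw p hs.le A) hP.le)
    exact mul_le_mul_of_nonneg_right (by linarith) h6
  rw [h1]
  calc pp p q a M (m - 1) s *
        ∑ A ∈ lev M (m - 1), ∑ k ∈ Aᶜ, qin w k A * ps (mu p q w s A / pp p q a M (m - 1) s)
      ≤ pp p q a M (m - 1) s * ∑ A ∈ lev M (m - 1),
          ((m : ℝ) - 1) * q * ps (mu p q w s A / pp p q a M (m - 1) s) :=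
        mul_le_mul_of_nonneg_left (sum_le_sum h3) hP.le
    _ = ((m : ℝ) - 1) * q * ent p q a w (m - 1) s := by
        unfold ent
        rw [← mul_sum, ← mul_sum]
        ring

private theorem Chn_data (H : Hyp p q a w) {m : ℕ} {s : ℝ} {B : Finset (Fin M)}
    (hB : B ∈ lev M m) :
    (∑ k ∈ B, qin w k (B.erase k)) - wm a m = exc a w B ∧
      ∑ k ∈ B, qin w k (B.erase k) * (mu p q w s (B.erase k) / pp p q a M (m - 1) s) =
        phi p q w s B / pp p q a M (m - 1) s := by
  constructor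
  · rw [qin_erase H.hw B, exc_eq, mem_lev.1 hB]
  · unfold phi
    rw [sum_div]
    refine sum_congr rfl fun k _ => ?_
    rw [mul_div_assoc]

theorem chn (H : Hyp p q a w) {m : ℕ} (h2 : 2 ≤ m) {s : ℝ} (hs : 0 < s) :
    -(wm a m * (((m : ℝ) - 1) * q * ent p q a w (m - 1) s)) ≤
      ∑ B ∈ lev M m, exc a w B * phi p q w s B := by
  have hP : 0 < pp p q a M (m - 1) s := pp_pos H (by omega) hs
  have hu : 0 < wm a m := H.wm_pos h2
  have h1 : ∀ B ∈ lev M m, 0 ≤ exc a w B * phi p q w s B -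
      wm a m * pp p q a M (m - 1) s * exc a w B +
      wm a m * (pp p q a M (m - 1) s * Chn_S p q a w m s B) := by
    intro B hB
    obtain ⟨e1, e2⟩ := Chn_data (p := p) (s := s) H hB
    have h := chain_real B (fun k => qin w k (B.erase k))
      (fun k => mu p q w s (B.erase k) / pp p q a M (m - 1) s)
      (fun k _ => qin_nonneg H.hw k _)
      (fun k _ => div_nonneg (mu_nonneg H.hw p hs.le _) hP.le) hu
    rw [e1, e2] at h
    have h3 := mul_nonneg (mul_pos hu hP).le h
    have h4 : wm a m * pp p q a M (m - 1) s *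
        (exc a w B * (phi p q w s B / pp p q a M (m - 1) s / wm a m - 1) +
          ∑ k ∈ B, qin w k (B.erase k) *
            ps (mu p q w s (B.erase k) / pp p q a M (m - 1) s)) =
        exc a w B * phi p q w s B - wm a m * pp p q a M (m - 1) s * exc a w B +
        wm a m * (pp p q a M (m - 1) s * Chn_S p q a w m s B) := by
      unfold Chn_S
      field_simp
    rw [h4] at h3
    exact h3
  have h2' := sum_nonneg h1
  rw [sum_add_distrib, sum_sub_distrib, ← mul_sum, ← mul_sum, ← mul_sum, exc_lev H m, mul_zero,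
    sub_zero] at h2'
  have h3 := mul_le_mul_of_nonneg_left (Chn_sum H h2 hs) hu.le
  linarith

theorem src_chn (H : Hyp p q a w) {m : ℕ} (h2 : 2 ≤ m) {s : ℝ} (hs : 0 < s) :
    ∑ B ∈ lev M m, wm a m * pp p q a M (m - 1) s *
        ps (phi p q w s B / (wm a m * pp p q a M (m - 1) s)) ≤
      2 * (((m : ℝ) - 1) * q * ent p q a w (m - 1) s) +
        pp p q a M (m - 1) s / wm a m * ∑ B ∈ lev M m, exc a w B ^ 2 := by
  have hP : 0 < pp p q a M (m - 1) s := pp_pos H (by omega) hs
  have hu : 0 < wm a m := H.wm_pos h2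
  have h1 : ∀ B ∈ lev M m, wm a m * pp p q a M (m - 1) s *
        ps (phi p q w s B / (wm a m * pp p q a M (m - 1) s)) ≤
      2 * (pp p q a M (m - 1) s * Chn_S p q a w m s B) +
        pp p q a M (m - 1) s / wm a m * exc a w B ^ 2 := by
    intro B hB
    obtain ⟨e1, e2⟩ := Chn_data (p := p) (s := s) H hB
    have h := src_real B (fun k => qin w k (B.erase k))
      (fun k => mu p q w s (B.erase k) / pp p q a M (m - 1) s)
      (fun k _ => qin_nonneg H.hw k _)
      (fun k _ => div_nonneg (mu_nonneg H.hw p hs.le _) hP.le) hu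
    rw [e1, e2] at h
    have h3 := mul_le_mul_of_nonneg_left h hP.le
    have h5 : phi p q w s B / pp p q a M (m - 1) s / wm a m =
        phi p q w s B / (wm a m * pp p q a M (m - 1) s) := by
      rw [div_div, mul_comm (pp p q a M (m - 1) s)]
    rw [h5] at h3
    calc wm a m * pp p q a M (m - 1) s *
          ps (phi p q w s B / (wm a m * pp p q a M (m - 1) s))
        = pp p q a M (m - 1) s * (wm a m *
          ps (phi p q w s B / (wm a m * pp p q a M (m - 1) s))) := by ring
      _ ≤ _ := h3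
      _ = _ := by
        unfold Chn_S
        ring
  have h2' := sum_le_sum h1
  have h4 : ∑ B ∈ lev M m, (2 * (pp p q a M (m - 1) s * Chn_S p q a w m s B) +
        pp p q a M (m - 1) s / wm a m * exc a w B ^ 2) =
      2 * (pp p q a M (m - 1) s * ∑ B ∈ lev M m, Chn_S p q a w m s B) +
        pp p q a M (m - 1) s / wm a m * ∑ B ∈ lev M m, exc a w B ^ 2 := by
    rw [sum_add_distrib, ← mul_sum, ← mul_sum, ← mul_sum]
  rw [h4] at h2'
  have h3 := Chn_sum H h2 hs
  linarith

end Pool.Agent.H68.BD
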