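import Pool.Agent.H78.Bass.Final

set_option autoImplicit false

/-!
# Definitions for the theorem on directed Bass networks with `10 q <= p`

The backward cluster of a uniform node in the network `w`: it starts with one node, a node `k` is added
to the cluster `A` at rate `qin w k A`, and the cluster is killed at rate `p |A|`. `mu` is its
sub-probability law. `Sc m` is the probability that `m` given nodes of the complete network are
non-adopters. `pp m` is the probability of one set of `m` nodes for the backward cluster of the complete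
network.
-/

open Finset

namespace Pool.Agent.H68.BD

open Pool.Agent.H78.Bass

variable {M : ℕ}

/-- all hypotheses -/
structure Hyp (p q a : ℝ) (w : Fin M → Fin M → ℝ) : Prop where
  hM : 3 ≤ M
  hp : 0 < p
  hq : 0 < q
  hpq : 10 * q ≤ p
  hw : IsHomogeneous q w
  ha : ((M : ℝ) - 1) * a = q

/-- the rate at which `k` is added to `A` -/
noncomputable def qin (w : Fin M → Fin M → ℝ) (k : Fin M) (A : Finset (Fin M)) : ℝ := ∑ j ∈ A, w k j

/-- internal weight of `m` nodes of the complete network -/
noncomputable def wm (a : ℝ) (m : ℕ) : ℝ := (m : ℝ) * ((m : ℝ) - 1) * a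

/-- decay rate of a set of `m` nodes -/
noncomputable def lm (p q a : ℝ) (m : ℕ) : ℝ := (m : ℝ) * (p + q) - wm a m

/-- rate of growth of a set of `m` nodes -/
noncomputable def lam (q a : ℝ) (m : ℕ) : ℝ := (m : ℝ) * q - wm a m

/-- the generator of the killed backward cluster -/
noncomputable def Km (p q : ℝ) (w : Fin M → Fin M → ℝ) :
    Matrix (Finset (Fin M)) (Finset (Fin M)) ℝ :=
  fun A B => (∑ k ∈ Aᶜ, qin w k A * (if B = insert k A then 1 else 0)) -
    ((A.card : ℝ) * (p + q) - wt w A) * (if B = A then 1 else 0)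

/-- law of the killed backward cluster -/
noncomputable def mu (p q : ℝ) (w : Fin M → Fin M → ℝ) (s : ℝ) (B : Finset (Fin M)) : ℝ :=
  (∑ j : Fin M, (NormedSpace.exp (s • Km p q w) :
    Matrix (Finset (Fin M)) (Finset (Fin M)) ℝ) {j} B) / M

/-- the flux into `B` -/
noncomputable def phi (p q : ℝ) (w : Fin M → Fin M → ℝ) (s : ℝ) (B : Finset (Fin M)) : ℝ :=
  ∑ k ∈ B, qin w k (B.erase k) * mu p q w s (B.erase k)

/-- the law of one set of `m` nodes in the complete network on `M` nodes -/
noncomputable def pp (p q a : ℝ) (M : ℕ) : ℕ → ℝ → ℝ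
  | 0 => fun _ => 0
  | 1 => fun s => Real.exp (-(p + q) * s) / M
  | (n + 2) => fun s => Real.exp (-(lm p q a (n + 2)) * s) *
      ∫ r in (0 : ℝ)..s, Real.exp (lm p q a (n + 2) * r) * (wm a (n + 2) * pp p q a M (n + 1) r)

/-- probability that `m` given nodes of the complete network are non-adopters -/
noncomputable def Sc (p q : ℝ) (M m : ℕ) (t : ℝ) : ℝ :=
  AA p (completeW q : Fin M → Fin M → ℝ) (m - 1) t / (M.choose m : ℝ)

/-- `S_m - S_(m+1)` -/
noncomputable def bet (p q : ℝ) (M m : ℕ) (t : ℝ) : ℝ := Sc p q M m t - Sc p q M (m + 1) t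

/-- the weights -/
noncomputable def kap (p q a : ℝ) (M m : ℕ) (t : ℝ) : ℝ :=
  Real.exp (-(lm p q a m) * t) * ∫ r in (0 : ℝ)..t, Real.exp (lm p q a m * r) * bet p q M m r

/-- `x log x - x + 1` -/
noncomputable def ps (x : ℝ) : ℝ := x * Real.log x - x + 1

/-- the sets with `m` elements -/
def lev (M m : ℕ) : Finset (Finset (Fin M)) := powersetCard m univ

/-- the relative entropy at level `m` -/
noncomputable def ent (p q a : ℝ) (w : Fin M → Fin M → ℝ) (m : ℕ) (s : ℝ) : ℝ :=
  ∑ B ∈ lev M m, pp p q a M m s * ps (mu p q w s B / pp p q a M m s)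

/-- the size of the deviation from the complete network -/
noncomputable def N2 (a : ℝ) (w : Fin M → Fin M → ℝ) : ℝ := ∑ B ∈ lev M 2, exc a w B ^ 2

/-- expectation of the excess at level `m` -/
noncomputable def GG (p q a : ℝ) (w : Fin M → Fin M → ℝ) (m : ℕ) (s : ℝ) : ℝ :=
  ∑ B ∈ lev M m, exc a w B * mu p q w s B

/-- the bounds for the entropies -/
noncomputable def bb (p q a : ℝ) (m : ℕ) : ℝ :=
  if m = 2 then 3 / 8 / a ^ 2 else 9 / 5 * (q / (a ^ 2 * p)) * (7 / 20) ^ (m - 3)

/-- the Lyapunov function -/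
noncomputable def LL (p q a : ℝ) (w : Fin M → Fin M → ℝ) (t s : ℝ) : ℝ :=
  ∑ B : Finset (Fin M), mu p q w s B * Sc p q M B.card (t - s) +
    ∑ m ∈ Icc 3 (M - 1), kap p q a M m (t - s) * GG p q a w m s

end Pool.Agent.H68.BD
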