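import Pool.Agent.H68.BD.Bas
import Pool.Agent.H68.BD.L2A
import Pool.Agent.H68.BD.CnB
import Pool.Agent.H68.BD.PsA

set_option autoImplicit false

/-!
# Module L2B: level two, sums

`GG_two`: `∑ exc = 0` (`exc_lev`), so `GG 2 = ∑ exc (mu - pp) ≥ ∑ exc^2/wm 2 * pp`. `ent_two`: `ps x ≤ (x-1)^2` with `x = mu/pp`, `l2_abs`, `(11/9)^2 ≤ 3/2`, and
`3/2/(wm 2)^2 = 3/8/a^2`.
-/

open Finset

namespace Pool.Agent.H68.BD

open Pool.Agent.H78.Bass

variable {M : ℕ} {p q a : ℝ} {w : Fin M → Fin M → ℝ}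

theorem GG_two (H : Hyp p q a w) {s : ℝ} (hs : 0 ≤ s) :
    N2 a w / wm a 2 * pp p q a M 2 s ≤ GG p q a w 2 s := by
  have h1 : GG p q a w 2 s = ∑ B ∈ lev M 2, exc a w B * (mu p q w s B - pp p q a M 2 s) := by
    have h2 : ∑ B ∈ lev M 2, exc a w B * pp p q a M 2 s = 0 := by
      rw [← sum_mul, exc_lev H 2, zero_mul]
    unfold GG
    rw [← sub_zero (∑ B ∈ lev M 2, exc a w B * mu p q w s B), ← h2, ← sum_sub_distrib]
    exact sum_congr rfl fun B _ => by ring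
  have h3 : N2 a w / wm a 2 * pp p q a M 2 s =
      ∑ B ∈ lev M 2, exc a w B ^ 2 / wm a 2 * pp p q a M 2 s := by
    unfold N2
    rw [sum_div, sum_mul]
  rw [h1, h3]
  exact sum_le_sum fun B hB => l2_gain H hs hB

private theorem L2B_point (H : Hyp p q a w) {s : ℝ} (hs : 0 < s) {B : Finset (Fin M)}
    (hB : B ∈ lev M 2) :
    pp p q a M 2 s * ps (mu p q w s B / pp p q a M 2 s) ≤
      3 / 8 / a ^ 2 * exc a w B ^ 2 * pp p q a M 2 s := by
  have ha := H.a_pos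
  have hP : 0 < pp p q a M 2 s := pp_pos H (by norm_num) hs
  have hx : 0 ≤ mu p q w s B / pp p q a M 2 s := div_nonneg (mu_nonneg H.hw p hs.le B) hP.le
  have h1 := ps_le_sq hx
  have h2 := l2_abs H hs.le hB
  have h3 : mu p q w s B / pp p q a M 2 s - 1 =
      (mu p q w s B - pp p q a M 2 s) / pp p q a M 2 s := by
    field_simp
  have h4 : |mu p q w s B / pp p q a M 2 s - 1| ≤ |exc a w B| / (2 * a) * (11 / 9) := by
    rw [h3, abs_div, abs_of_pos hP, div_le_iff₀ hP]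
    rw [wm_two] at h2
    exact h2
  have h5 : (mu p q w s B / pp p q a M 2 s - 1) ^ 2 ≤
      (|exc a w B| / (2 * a) * (11 / 9)) ^ 2 := by
    rw [← sq_abs]
    exact pow_le_pow_left₀ (abs_nonneg _) h4 2
  have h6 : (|exc a w B| / (2 * a) * (11 / 9)) ^ 2 = (121 / 324) / a ^ 2 * exc a w B ^ 2 := by
    rw [mul_pow, div_pow, sq_abs]
    field_simp
    ring
  have h7 : (121 / 324) / a ^ 2 * exc a w B ^ 2 ≤ 3 / 8 / a ^ 2 * exc a w B ^ 2 := by
    have h8 : (121 / 324 : ℝ) / a ^ 2 ≤ 3 / 8 / a ^ 2 :=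
      div_le_div_of_nonneg_right (by norm_num) (sq_nonneg a)
    exact mul_le_mul_of_nonneg_right h8 (sq_nonneg _)
  have h9 : ps (mu p q w s B / pp p q a M 2 s) ≤ 3 / 8 / a ^ 2 * exc a w B ^ 2 := by
    rw [h6] at h5
    exact h1.trans (h5.trans h7)
  rw [mul_comm (pp p q a M 2 s)]
  exact mul_le_mul_of_nonneg_right h9 hP.le

theorem ent_two (H : Hyp p q a w) {s : ℝ} (hs : 0 < s) :
    ent p q a w 2 s ≤ bb p q a 2 * N2 a w * pp p q a M 2 s := by
  have h1 : bb p q a 2 * N2 a w * pp p q a M 2 s =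
      ∑ B ∈ lev M 2, 3 / 8 / a ^ 2 * exc a w B ^ 2 * pp p q a M 2 s := by
    unfold bb N2
    rw [if_pos rfl, mul_sum, sum_mul]
  rw [h1]
  unfold ent
  exact sum_le_sum fun B hB => L2B_point H hs hB

end Pool.Agent.H68.BD
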