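import Pool.Agent.H68.BD.Bas

/-!
# Module NuA: numbers, the recursion

`choose_le`: `(M-2).choose (m-2) ≤ (M-1)^(m-2)/(m-2)!` (`Nat.choose_le_pow_div`, `M - 2 ≤ M - 1`); `m.choose 2 = m (m-1)/2` (`Nat.cast_choose_two`).
`num_rec`, `m = 3`: `bb 2 = 3/8/a^2`, `bb 3 = 9/5 q/(a^2 p)`: left side `4q * 3/8/a^2 + 27/25/(6a) * 3 (M-2) ≤ (3/2 + 27/50) q/a^2` because `(M-2) ≤ M - 1 = q/a`;
right side `(9/4 p - p - q) 9/5 q/(a^2 p) ≥ (23/20) (9/5) q/a^2 = 2.07 q/a^2`.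
`m ≥ 4`: `(a/(p-q/2))^(m-3) (m-1)!/2 * m(m-1)/2 * (M-1)^(m-2)/(m-2)!/(m (m-1) a) = (q/(p-q/2))^(m-3) (m-1) (M-1)/(4a)`, `(M-1)/a = q/a^2`,
`q/(p-q/2) ≤ 2/19`. Divide by `q/a^2`: it remains
`2(m-1)(q/p)(9/5)(7/20)^(m-4) + (27/100)(2/19)^(m-3)(m-1) ≤ ((3/4)m - 1 - q/p)(9/5)(7/20)^(m-3)`. With `q/p ≤ 1/10` (both sides in the right direction) and
`(2/19)^(m-3) ≤ (2/19)(7/20)^(m-4)` it suffices that `(m-1)(9/25 + 27/950) ≤ (63/100)((3/4)m - 11/10)`, which is linear in `m` and true for `m = 4` and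
all larger `m`.
-/

set_option autoImplicit false

open Finset

namespace Pool.Agent.H68.BD

open Pool.Agent.H78.Bass

variable {M : ℕ} {p q a : ℝ} {w : Fin M → Fin M → ℝ}

private lemma NuA_second {p q a A y : ℝ} {n : ℕ} {F G : ℝ} (ha : 0 < a) (hA : 2 ≤ A) (hqa : A * a = q)
    (_hp : 0 < p) (hq : 0 < q) (hpq : 10 * q ≤ p) (hG : 0 < G)
    (hF : F = ((n : ℝ) + 3) * G) (hy : y ≤ A ^ (n + 2) / G) :
    27 / 25 / (((n : ℝ) + 4) * (((n : ℝ) + 4) - 1) * a) *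
      ((a / (p - q / 2)) ^ (n + 1) * (F / 2)) *
      ((((n : ℝ) + 4) * (((n : ℝ) + 4) - 1) / 2) * y) ≤
      27 / 100 * ((n : ℝ) + 3) * (q / a ^ 2) * ((2 / 19) * (7 / 20) ^ n) := by
  have hn : (0 : ℝ) ≤ (n : ℝ) := Nat.cast_nonneg n
  have hd : 0 < p - q / 2 := by linarith
  have hr0 : 0 ≤ a / (p - q / 2) := by positivity
  have h1 : 27 / 25 / (((n : ℝ) + 4) * (((n : ℝ) + 4) - 1) * a) *
      ((a / (p - q / 2)) ^ (n + 1) * (F / 2)) *
      ((((n : ℝ) + 4) * (((n : ℝ) + 4) - 1) / 2) * y)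
      = 27 / 100 / a * ((a / (p - q / 2)) ^ (n + 1) * F) * y := by
    have e1 : (n : ℝ) + 4 ≠ 0 := by positivity
    have e2 : ((n : ℝ) + 4) - 1 ≠ 0 := by
      have : ((n : ℝ) + 4) - 1 = (n : ℝ) + 3 := by ring
      rw [this]; positivity
    have e3 : a ≠ 0 := ha.ne'
    generalize (a / (p - q / 2)) ^ (n + 1) = z
    field_simp
    ring
  rw [h1]
  have hF0 : 0 ≤ F := by rw [hF]; positivity
  have h2 : 27 / 100 / a * ((a / (p - q / 2)) ^ (n + 1) * F) * y ≤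
      27 / 100 / a * ((a / (p - q / 2)) ^ (n + 1) * F) * (A ^ (n + 2) / G) :=
    mul_le_mul_of_nonneg_left hy (by positivity)
  refine le_trans h2 ?_
  have h3 : 27 / 100 / a * ((a / (p - q / 2)) ^ (n + 1) * F) * (A ^ (n + 2) / G)
      = 27 / 100 * ((n : ℝ) + 3) * (A / a) * ((A * a) / (p - q / 2)) ^ (n + 1) := by
    rw [hF, div_pow, div_pow, mul_pow]
    have e3 : a ≠ 0 := ha.ne'
    have e4 : G ≠ 0 := hG.ne'
    have e5 : (p - q / 2) ^ (n + 1) ≠ 0 := pow_ne_zero _ hd.ne'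
    generalize hz : (p - q / 2) ^ (n + 1) = z at e5
    have e6 : A ^ (n + 2) = A * A ^ (n + 1) := by ring
    rw [e6]
    generalize A ^ (n + 1) = b
    generalize a ^ (n + 1) = c
    field_simp
  have h4 : A / a = q / a ^ 2 := by
    rw [← hqa]; field_simp
  rw [h3, h4, hqa]
  have hqd : q / (p - q / 2) ≤ 2 / 19 := by
    rw [div_le_iff₀ hd]; linarith
  have hqd0 : 0 ≤ q / (p - q / 2) := by positivity
  have h5 : (q / (p - q / 2)) ^ (n + 1) ≤ (2 / 19) * (7 / 20) ^ n := by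
    have g1 : (q / (p - q / 2)) ^ n ≤ (7 / 20) ^ n :=
      pow_le_pow_left₀ hqd0 (by linarith) n
    calc (q / (p - q / 2)) ^ (n + 1) = (q / (p - q / 2)) * (q / (p - q / 2)) ^ n := by ring
      _ ≤ (2 / 19) * (7 / 20) ^ n := mul_le_mul hqd g1 (by positivity) (by norm_num)
  exact mul_le_mul_of_nonneg_left h5 (by positivity)

theorem num_rec (H : Hyp p q a w) {m : ℕ} (h3 : 3 ≤ m) (hm : m ≤ M) :
    2 * (((m : ℝ) - 1) * q * bb p q a (m - 1)) +
        27 / 25 / wm a m * ((a / (p - q / 2)) ^ (m - 3) * (((m - 1).factorial : ℝ) / 2)) *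
          ((m.choose 2 : ℝ) * ((M - 2).choose (m - 2) : ℝ)) ≤
      (3 / 4 * (m : ℝ) * p - (p + q)) * bb p q a m := by
  have hA := H.M1
  have ha := H.a_pos
  have hq := H.hq
  have hp := H.hp
  have hpq := H.hpq
  have hqa := H.ha
  have hM := H.hM
  have hx : q / p ≤ 1 / 10 := by
    rw [div_le_iff₀ hp]; linarith
  have hx0 : 0 < q / p := by positivity
  have hr : 0 < q / a ^ 2 := by positivity
  have hM2 : ((M - 2 : ℕ) : ℝ) ≤ (M : ℝ) - 1 := by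
    have : ((M - 2 : ℕ) : ℝ) + 1 ≤ (M : ℝ) := by exact_mod_cast (by omega : M - 2 + 1 ≤ M)
    linarith
  obtain h | h : m = 3 ∨ 4 ≤ m := by omega
  · subst h
    have eb2 : bb p q a (3 - 1) = 3 / 8 / a ^ 2 := by unfold bb; simp
    have eb3 : bb p q a 3 = 9 / 5 * (q / (a ^ 2 * p)) := by unfold bb; simp
    have ech : ((M - 2).choose (3 - 2) : ℝ) = ((M - 2 : ℕ) : ℝ) := by
      have : (M - 2).choose (3 - 2) = M - 2 := Nat.choose_one_right _
      rw [this]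
    have ec3 : ((3 : ℕ).choose 2 : ℝ) = 3 := by norm_num [Nat.choose]
    have ef : (((3 - 1 : ℕ)).factorial : ℝ) = 2 := by norm_num [Nat.factorial]
    rw [eb2, eb3, ech, ec3, ef, wm_three]
    have e1 : ((3 / 4 * ((3 : ℕ) : ℝ) * p - (p + q)) * (9 / 5 * (q / (a ^ 2 * p))) : ℝ)
        = (5 / 4 - q / p) * (9 / 5) * (q / a ^ 2) := by
      push_cast
      field_simp
      ring
    have hy : ((M - 2 : ℕ) : ℝ) / a ≤ q / a ^ 2 := by
      rw [div_le_div_iff₀ ha (by positivity)]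
      have : ((M - 2 : ℕ) : ℝ) * a ≤ q := by
        rw [← hqa]; exact mul_le_mul_of_nonneg_right hM2 ha.le
      nlinarith
    have e2 : 2 * ((((3 : ℕ) : ℝ) - 1) * q * (3 / 8 / a ^ 2)) +
        27 / 25 / (6 * a) * ((a / (p - q / 2)) ^ (3 - 3) * ((2 : ℝ) / 2)) *
          ((3 : ℝ) * ((M - 2 : ℕ) : ℝ)) = 3 / 2 * (q / a ^ 2) + 27 / 50 * (((M - 2 : ℕ) : ℝ) / a) := by
      push_cast
      rw [pow_zero]
      field_simp
      ring
    rw [e1, e2]
    nlinarith [mul_nonneg hr.le (sub_nonneg.2 hx)]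
  · obtain ⟨n, rfl⟩ : ∃ n, m = n + 4 := ⟨m - 4, by omega⟩
    have hn : (0 : ℝ) ≤ (n : ℝ) := Nat.cast_nonneg n
    have eb1 : bb p q a (n + 4 - 1) = 9 / 5 * (q / (a ^ 2 * p)) * (7 / 20) ^ n := by
      unfold bb
      rw [if_neg (by omega)]
      congr 2
    have eb2 : bb p q a (n + 4) = 9 / 5 * (q / (a ^ 2 * p)) * (7 / 20) ^ (n + 1) := by
      unfold bb
      rw [if_neg (by omega)]
      congr 2
    have ech : ((n + 4).choose 2 : ℝ) = ((n : ℝ) + 4) * (((n : ℝ) + 4) - 1) / 2 := by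
      rw [Nat.cast_choose_two]; push_cast; ring
    have e3 : n + 4 - 3 = n + 1 := by omega
    have e2 : n + 4 - 2 = n + 2 := by omega
    have e1 : n + 4 - 1 = n + 3 := by omega
    have hsec := NuA_second (p := p) (q := q) (a := a) (A := (M : ℝ) - 1)
      (y := ((M - 2).choose (n + 2) : ℝ)) (n := n) (F := ((n + 3).factorial : ℝ))
      (G := ((n + 2).factorial : ℝ)) ha hA hqa hp hq hpq
      (by exact_mod_cast Nat.factorial_pos (n + 2))
      (by rw [Nat.factorial_succ]; push_cast; ring)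
      (by
        refine le_trans (Nat.choose_le_pow_div (n + 2) (M - 2)) ?_
        apply div_le_div_of_nonneg_right _ (by positivity)
        exact pow_le_pow_left₀ (Nat.cast_nonneg _) hM2 _)
    rw [eb1, eb2, ech, e3, e2, e1]
    unfold wm
    push_cast
    refine le_trans (add_le_add_right hsec _) ?_
    have ht : (0 : ℝ) < (7 / 20) ^ n := by positivity
    have e5 : 2 * (((n : ℝ) + 4 - 1) * q * (9 / 5 * (q / (a ^ 2 * p)) * (7 / 20) ^ n))
        = (18 / 5 * ((n : ℝ) + 3) * (q / p)) * ((q / a ^ 2) * (7 / 20) ^ n) := by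
      generalize ((7 : ℝ) / 20) ^ n = t
      field_simp
      ring
    have e6 : (3 / 4 * ((n : ℝ) + 4) * p - (p + q)) * (9 / 5 * (q / (a ^ 2 * p)) * (7 / 20) ^ (n + 1))
        = (63 / 100 * (3 / 4 * ((n : ℝ) + 4) - 1 - q / p)) * ((q / a ^ 2) * (7 / 20) ^ n) := by
      rw [show ((7 : ℝ) / 20) ^ (n + 1) = (7 / 20) ^ n * (7 / 20) from pow_succ _ _]
      generalize ((7 : ℝ) / 20) ^ n = t
      field_simp
      ring
    have e7 : 27 / 100 * ((n : ℝ) + 3) * (q / a ^ 2) * ((2 / 19) * (7 / 20) ^ n)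
        = (27 / 950 * ((n : ℝ) + 3)) * ((q / a ^ 2) * (7 / 20) ^ n) := by ring
    rw [e5, e6, e7, ← add_mul]
    apply mul_le_mul_of_nonneg_right _ (by positivity)
    nlinarith [mul_nonneg hn (sub_nonneg.2 hx)]

end Pool.Agent.H68.BD
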