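import Pool.Agent.H68.BD.Bas
import Pool.Agent.H68.BD.EnD
import Pool.Agent.H68.BD.MuK
import Pool.Agent.H68.BD.L2B
import Pool.Agent.H68.BD.NuA

set_option autoImplicit false

/-!
# Module EnB: the bound for the entropies

`compare0`: as `compare`, on `(0, ∞)` with the limit `0` at `0`: for `0 < e < t` the function `f s * exp (c s)` is monotone on `[e, t]`, let `e → 0`.
`ent_le`: induction on `m ≥ 2`; `m = 2` is `ent_two`. `m ≥ 3`: `F s = bb m * N2 * pp 2 s - ent m s` tends to `0` at `0+` (`pp_cont`, `pp_zero`, `ent_tendsto`). For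
`s > 0` by `ent_deriv` and `pp 2' ≥ -(p+q) pp 2` (`pp_hasDeriv`, `pp_mono`):
`F' ≥ -(p+q) bb m N2 pp2 + (3/4) m p ent m - 2 (m-1) q ent (m-1) - (pp (m-1)/wm + 4 pp m/(mp)) ∑ exc^2`. Use `ent m = bb m N2 pp2 - F`, the induction hypothesis for
`ent (m-1)`, `pp_four` (the bracket is `≤ 27/25 pp (m-1)/wm`), `pp_ratio`, `exc_sq_lev` and `num_rec` times `N2 pp2 ≥ 0`: `F' ≥ -(3/4) m p F`. `compare0`.
-/

open Finset

namespace Pool.Agent.H68.BD

open Pool.Agent.H78.Bass

variable {M : ℕ} {p q a : ℝ} {w : Fin M → Fin M → ℝ}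

theorem compare0 {f f' : ℝ → ℝ} {c : ℝ} (hf : ∀ t, 0 < t → HasDerivAt f (f' t) t)
    (h : ∀ t, 0 < t → -c * f t ≤ f' t)
    (h0 : Filter.Tendsto f (nhdsWithin 0 (Set.Ioi 0)) (nhds 0)) {t : ℝ} (ht : 0 < t) :
    0 ≤ f t := by
  have hg : ∀ s, 0 < s → HasDerivAt (fun r => f r * Real.exp (c * r))
      (f' s * Real.exp (c * s) + f s * (Real.exp (c * s) * c)) s := by
    intro s hs
    have h1 : HasDerivAt (fun r : ℝ => Real.exp (c * r)) (Real.exp (c * s) * c) s := by
      have h2 : HasDerivAt (fun r : ℝ => c * r) c s := by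
        simpa using (hasDerivAt_id s).const_mul c
      exact h2.exp
    exact (hf s hs).mul h1
  have hmono : MonotoneOn (fun r => f r * Real.exp (c * r)) (Set.Ioi 0) := by
    refine monotoneOn_of_deriv_nonneg (convex_Ioi 0) ?_ ?_ ?_
    · intro s hs
      exact (hg s hs).continuousAt.continuousWithinAt
    · intro s hs
      rw [interior_Ioi] at hs
      exact (hg s hs).differentiableAt.differentiableWithinAt
    · intro s hs
      rw [interior_Ioi] at hs
      rw [(hg s hs).deriv]
      have h1 := h s hs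
      have h2 := Real.exp_pos (c * s)
      have h3 : f' s * Real.exp (c * s) + f s * (Real.exp (c * s) * c) =
          (f' s + c * f s) * Real.exp (c * s) := by ring
      rw [h3]
      exact mul_nonneg (by linarith) h2.le
  have hlim : Filter.Tendsto (fun r => f r * Real.exp (c * r)) (nhdsWithin 0 (Set.Ioi 0))
      (nhds (0 * Real.exp (c * 0))) := by
    refine h0.mul ?_
    have hc : Continuous fun r : ℝ => Real.exp (c * r) := by fun_prop
    exact (hc.tendsto 0).mono_left nhdsWithin_le_nhds
  rw [zero_mul] at hlim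
  have hle : 0 ≤ f t * Real.exp (c * t) := by
    refine le_of_tendsto hlim ?_
    have hmem : Set.Ioo (0 : ℝ) t ∈ nhdsWithin (0 : ℝ) (Set.Ioi 0) := Ioo_mem_nhdsGT ht
    filter_upwards [hmem] with r hr
    exact hmono hr.1 ht hr.2.le
  exact nonneg_of_mul_nonneg_left hle (Real.exp_pos _)

private theorem EnB_bb_nonneg (H : Hyp p q a w) (m : ℕ) : 0 ≤ bb p q a m := by
  have hp := H.hp
  have hq := H.hq
  have ha := H.a_pos
  unfold bb
  split_ifs
  · positivity
  · positivity

private theorem EnB_step (H : Hyp p q a w) {m : ℕ} (h3 : 3 ≤ m) (hm : m ≤ M)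
    (ih : ∀ s, 0 < s → ent p q a w (m - 1) s ≤ bb p q a (m - 1) * N2 a w * pp p q a M 2 s)
    {s : ℝ} (hs : 0 < s) :
    ent p q a w m s ≤ bb p q a m * N2 a w * pp p q a M 2 s := by
  have hp := H.hp
  have hq := H.hq
  have hN := H.N2_nonneg
  have hbb := EnB_bb_nonneg H m
  have hM2 : 2 ≤ M := by omega
  have hm1 : (3 : ℝ) ≤ m := by exact_mod_cast h3
  have hex : ∀ r : ℝ, ∃ e : ℝ, 0 < r → HasDerivAt (ent p q a w m) e r ∧
      e ≤ -(3 / 4) * (m : ℝ) * p * ent p q a w m r +
        2 * (((m : ℝ) - 1) * q * ent p q a w (m - 1) r) +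
        (pp p q a M (m - 1) r / wm a m + 4 * pp p q a M m r / ((m : ℝ) * p)) *
          ∑ B ∈ lev M m, exc a w B ^ 2 := by
    intro r
    by_cases hr : 0 < r
    · obtain ⟨e, he⟩ := ent_deriv H (by omega : 2 ≤ m) hm hr
      exact ⟨e, fun _ => he⟩
    · exact ⟨0, fun h => absurd h hr⟩
  choose e he using hex
  have key : 0 ≤ bb p q a m * N2 a w * pp p q a M 2 s - ent p q a w m s := by
    refine compare0 (f := fun r => bb p q a m * N2 a w * pp p q a M 2 r - ent p q a w m r)
      (f' := fun r => bb p q a m * N2 a w *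
        (-(lm p q a 2) * pp p q a M 2 r + wm a 2 * pp p q a M (2 - 1) r) - e r)
      (c := 3 / 4 * (m : ℝ) * p) ?_ ?_ ?_ hs
    · intro r hr
      exact ((pp_hasDeriv p q a M le_rfl r).const_mul _).sub (he r hr).1
    · intro r hr
      have h1 := (he r hr).2
      have h2 := pp_mono H le_rfl hM2 hr.le
      have h4 := ih r hr
      have h5 := pp_four H h3 hm hr.le
      have h6 := pp_ratio H h3 hm hr.le
      have h7 := exc_sq_lev H (by omega : 2 ≤ m)
      have h8 := num_rec H h3 hm
      have hP2 := pp_nonneg H (by omega : 1 ≤ 2) hr.le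
      have hPm1 := pp_nonneg H (by omega : 1 ≤ m - 1) hr.le
      have hw := H.wm_pos (by omega : 2 ≤ m)
      have hE : 0 ≤ ∑ B ∈ lev M m, exc a w B ^ 2 := Finset.sum_nonneg fun B _ => sq_nonneg _
      have hK : 0 ≤ bb p q a m * N2 a w := mul_nonneg hbb hN
      -- the main term
      have a1 : bb p q a m * N2 a w * (-(p + q) * pp p q a M 2 r) ≤
          bb p q a m * N2 a w *
            (-(lm p q a 2) * pp p q a M 2 r + wm a 2 * pp p q a M (2 - 1) r) :=
        mul_le_mul_of_nonneg_left (by linarith) hK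
      -- the lower entropy
      have a2 : 2 * (((m : ℝ) - 1) * q * ent p q a w (m - 1) r) ≤
          2 * (((m : ℝ) - 1) * q * (bb p q a (m - 1) * N2 a w * pp p q a M 2 r)) := by
        have : 0 ≤ ((m : ℝ) - 1) * q := mul_nonneg (by linarith) hq.le
        have := mul_le_mul_of_nonneg_left h4 this
        linarith
      -- the bracket
      have a3 : pp p q a M (m - 1) r / wm a m + 4 * pp p q a M m r / ((m : ℝ) * p) ≤
          27 / 25 / wm a m * ((a / (p - q / 2)) ^ (m - 3) * (((m - 1).factorial : ℝ) / 2)) *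
            pp p q a M 2 r := by
        have b1 : pp p q a M (m - 1) r / wm a m + 4 * pp p q a M m r / ((m : ℝ) * p) ≤
            27 / 25 / wm a m * pp p q a M (m - 1) r := by
          have b2 : 27 / 25 / wm a m * pp p q a M (m - 1) r =
              pp p q a M (m - 1) r / wm a m + 2 / 25 * (pp p q a M (m - 1) r / wm a m) := by
            field_simp
            ring
          rw [b2]
          linarith
        refine b1.trans ?_
        have b3 : 0 ≤ 27 / 25 / wm a m := by positivity
        calc 27 / 25 / wm a m * pp p q a M (m - 1) r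
            ≤ 27 / 25 / wm a m * ((a / (p - q / 2)) ^ (m - 3) *
                (((m - 1).factorial : ℝ) / 2) * pp p q a M 2 r) :=
              mul_le_mul_of_nonneg_left h6 b3
          _ = _ := by ring
      have a4 : (pp p q a M (m - 1) r / wm a m + 4 * pp p q a M m r / ((m : ℝ) * p)) *
            ∑ B ∈ lev M m, exc a w B ^ 2 ≤
          27 / 25 / wm a m * ((a / (p - q / 2)) ^ (m - 3) * (((m - 1).factorial : ℝ) / 2)) *
            pp p q a M 2 r *
              ((m.choose 2 : ℝ) * ((M - 2).choose (m - 2) : ℝ) * N2 a w) := by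
        refine (mul_le_mul_of_nonneg_right a3 hE).trans ?_
        refine mul_le_mul_of_nonneg_left h7 ?_
        have hPm := pp_nonneg H (by omega : 1 ≤ m) hr.le
        have c1 : 0 ≤ pp p q a M (m - 1) r / wm a m + 4 * pp p q a M m r / ((m : ℝ) * p) := by
          positivity
        exact c1.trans a3
      -- the recursion
      have a5 := mul_le_mul_of_nonneg_right h8 (mul_nonneg hN hP2)
      have e1 : (2 * (((m : ℝ) - 1) * q * bb p q a (m - 1)) +
          27 / 25 / wm a m * ((a / (p - q / 2)) ^ (m - 3) * (((m - 1).factorial : ℝ) / 2)) *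
            ((m.choose 2 : ℝ) * ((M - 2).choose (m - 2) : ℝ))) * (N2 a w * pp p q a M 2 r) =
          2 * (((m : ℝ) - 1) * q * (bb p q a (m - 1) * N2 a w * pp p q a M 2 r)) +
          27 / 25 / wm a m * ((a / (p - q / 2)) ^ (m - 3) * (((m - 1).factorial : ℝ) / 2)) *
            pp p q a M 2 r *
              ((m.choose 2 : ℝ) * ((M - 2).choose (m - 2) : ℝ) * N2 a w) := by
        ring
      rw [e1] at a5
      have e2 : (3 / 4 * (m : ℝ) * p - (p + q)) * bb p q a m * (N2 a w * pp p q a M 2 r) =
          3 / 4 * (m : ℝ) * p * (bb p q a m * N2 a w * pp p q a M 2 r) +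
            bb p q a m * N2 a w * (-(p + q) * pp p q a M 2 r) := by
        ring
      rw [e2] at a5
      have e3 : -(3 / 4 * (m : ℝ) * p) *
          (bb p q a m * N2 a w * pp p q a M 2 r - ent p q a w m r) =
          -(3 / 4 * (m : ℝ) * p * (bb p q a m * N2 a w * pp p q a M 2 r)) -
            (-(3 / 4) * (m : ℝ) * p * ent p q a w m r) := by
        ring
      show -(3 / 4 * (m : ℝ) * p) *
          (bb p q a m * N2 a w * pp p q a M 2 r - ent p q a w m r) ≤
        bb p q a m * N2 a w *
        (-(lm p q a 2) * pp p q a M 2 r + wm a 2 * pp p q a M (2 - 1) r) - e r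
      rw [e3]
      linarith
    · have h1 : Filter.Tendsto (fun r => bb p q a m * N2 a w * pp p q a M 2 r)
          (nhdsWithin 0 (Set.Ioi 0)) (nhds (bb p q a m * N2 a w * pp p q a M 2 0)) :=
        (((pp_cont p q a M 2).const_mul _).tendsto 0).mono_left nhdsWithin_le_nhds
      rw [pp_zero p q a M le_rfl, mul_zero] at h1
      have h2 := h1.sub (ent_tendsto H (by omega : 2 ≤ m) hm)
      rw [sub_zero] at h2
      exact h2
  linarith

theorem ent_le (H : Hyp p q a w) {m : ℕ} (h2 : 2 ≤ m) (hm : m ≤ M) {s : ℝ} (hs : 0 < s) :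
    ent p q a w m s ≤ bb p q a m * N2 a w * pp p q a M 2 s := by
  induction m, h2 using Nat.le_induction generalizing s with
  | base => exact ent_two H hs
  | succ n hn ih =>
    refine EnB_step H (by omega) hm ?_ hs
    intro r hr
    have h := ih (by omega) hr
    rwa [Nat.add_sub_cancel]

end Pool.Agent.H68.BD
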