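import Pool.Agent.H68.BD.Bas

set_option autoImplicit false

/-!
# Module ScA: the complete network

`completeW q` is homogeneous (`complete_hom`) and `exc a (completeW q) Z = 0` (`complete_exc`, `a = q/(M-1)`), so all
`DD` vanish (`DD_eq_zero`) and `AA_deriv` with `k = m - 1` reads `AA' = -(m (p+q) - m (m-1) a) AA_(m-1) + (m+1) m a AA_m`. Divide by
`M.choose m`: `(m+1) * M.choose (m+1) = (M-m) * M.choose m` (`Nat.choose_succ_right_eq`), so the second term is `m a (M-m) Sc (m+1)`
(for `m = M` both sides are zero), and `m a (M-m) = lam q a m` because `(M-1) a = q`; `lm = m p + lam` (`lm_eq`).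
`Sc_zero`: `ex_zero`, `Psi (m-1) univ = M.choose m`. `Sc_level`: `level_eq`. `Sc_top`: `AA_large`.
-/

open Finset

namespace Pool.Agent.H68.BD

open Pool.Agent.H78.Bass

variable {M : ℕ} {p q a : ℝ} {w : Fin M → Fin M → ℝ}

theorem Sc_hasDeriv (H : Hyp p q a w) {m : ℕ} (h1 : 1 ≤ m) (hm : m ≤ M) (t : ℝ) :
    HasDerivAt (Sc p q M m)
      (-((m : ℝ) * p + lam q a m) * Sc p q M m t + lam q a m * Sc p q M (m + 1) t) t := by
  obtain ⟨k, rfl⟩ : ∃ k, m = k + 1 := ⟨m - 1, by omega⟩
  have hM := H.hM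
  have hM1 := H.M1
  have ha' : q / ((M : ℝ) - 1) = a := by
    rw [← H.ha]
    field_simp
  have hc := complete_hom (M := M) (by omega) H.hq
  have hex : ∀ Z : Finset (Fin M), exc a (completeW q : Fin M → Fin M → ℝ) Z = 0 := by
    intro Z
    have h := complete_exc (M := M) q Z
    rw [ha'] at h
    exact h
  have hD : ∀ j s, DD p a (completeW q : Fin M → Fin M → ℝ) j s = 0 := fun j s =>
    DD_eq_zero hex j s
  have hA := AA_deriv hc.diag hc.sum p a k t
  have hA2 := hA.div_const ((M.choose (k + 1) : ℕ) : ℝ)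
  have hfun : (fun x => AA p (completeW q : Fin M → Fin M → ℝ) k x / ((M.choose (k + 1) : ℕ) : ℝ)) =
      Sc p q M (k + 1) := by
    funext x
    unfold Sc
    rw [Nat.add_sub_cancel]
  rw [hfun] at hA2
  refine hA2.congr_deriv ?_
  rw [hD k t]
  have hD2 : (if k = 0 then (0 : ℝ) else DD p a (completeW q : Fin M → Fin M → ℝ) (k - 1) t) = 0 := by
    split_ifs
    · rfl
    · exact hD _ _
  rw [hD2]
  unfold Sc lam wm
  rw [Nat.add_sub_cancel, Nat.add_sub_cancel]
  have hC : (0 : ℝ) < ((M.choose (k + 1) : ℕ) : ℝ) := by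
    exact_mod_cast Nat.choose_pos hm
  have hrel := choose_rel2 M (k + 1)
  push_cast at hrel
  have ha := H.ha
  rcases Nat.lt_or_ge (k + 1) M with hlt | hge
  · have hC2 : (0 : ℝ) < ((M.choose (k + 1 + 1) : ℕ) : ℝ) := by
      exact_mod_cast Nat.choose_pos hlt
    generalize AA p (completeW q : Fin M → Fin M → ℝ) (k + 1) t = X
    generalize AA p (completeW q : Fin M → Fin M → ℝ) k t = Y
    rw [← ha]
    push_cast
    field_simp
    have hrel2 : ((M.choose (k + 1 + 1) : ℕ) : ℝ) * ((k : ℝ) + 1 + 1) =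
        ((M : ℝ) - (k + 1)) * ((M.choose (k + 1) : ℕ) : ℝ) := by linarith
    linear_combination (((k : ℝ) + 1) * a * X) * hrel2
  · have hkM : k + 1 = M := le_antisymm hm hge
    have hz : AA p (completeW q : Fin M → Fin M → ℝ) (k + 1) t = 0 :=
      AA_large p _ (by omega) t
    rw [hz]
    generalize AA p (completeW q : Fin M → Fin M → ℝ) k t = Y
    have hkM' : (M : ℝ) = (k : ℝ) + 1 := by exact_mod_cast hkM.symm
    rw [← ha, hkM']
    push_cast
    field_simp
    ring

theorem Sc_zero (p q : ℝ) {m : ℕ} (h1 : 1 ≤ m) (hm : m ≤ M) : Sc p q M m 0 = 1 := by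
  have hC : (0 : ℝ) < ((M.choose m : ℕ) : ℝ) := by
    exact_mod_cast Nat.choose_pos hm
  unfold Sc AA
  rw [ex_zero, Finset.compl_empty]
  unfold Psi
  rw [Nat.sub_add_cancel h1, Finset.card_univ, Fintype.card_fin]
  exact div_self hC.ne'

theorem Sc_top (p q t : ℝ) (hM : 1 ≤ M) : Sc p q M (M + 1) t = 0 := by
  unfold Sc
  rw [AA_large p _ (by omega) t, zero_div]

theorem Sc_level (p q t : ℝ) (hM : 1 ≤ M) :
    1 - level (fun _ : Fin M => p) (completeW q) t = Sc p q M 1 t := by
  rw [level_eq hM]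
  unfold Sc
  rw [Nat.choose_one_right]
  simp

end Pool.Agent.H68.BD
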