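import Pool.Agent.H68.BD.Bas
import Pool.Agent.H68.BD.ScB

set_option autoImplicit false

/-!
# Module KaA: the weights kap

`kap_hasDeriv`: fundamental theorem of calculus (`intervalIntegral.integral_hasDerivAt_right`, continuity of `bet`: `Sc` is
differentiable) and the product rule. `kap_nonneg`: the integrand is `≥ 0`, or `compare`.
`kap_le`: `X t = p/(p-q) exp (-mpt) (t - (1 - exp (-pt))/p)` has `X' = -mp X + p/(p-q) exp (-mpt) (1 - exp (-pt)) ≥ -lm X + bet`
(`mp ≤ lm`, `X ≥ 0`: `1 - exp (-x) ≤ x`; `bet_upper`), `X 0 = 0 = kap 0`: `compare` with `c = lm`.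
-/

open Finset

namespace Pool.Agent.H68.BD

open Pool.Agent.H78.Bass

variable {M : ℕ} {p q a : ℝ} {w : Fin M → Fin M → ℝ}

private theorem KaA_bet_cont (H : Hyp p q a w) {m : ℕ} (h1 : 1 ≤ m) (hm : m < M) :
    Continuous (bet p q M m) := by
  have h2 : Continuous (Sc p q M m) :=
    continuous_iff_continuousAt.2 fun t => (Sc_hasDeriv H h1 hm.le t).continuousAt
  have h3 : Continuous (Sc p q M (m + 1)) :=
    continuous_iff_continuousAt.2 fun t => (Sc_hasDeriv H (by omega) (by omega) t).continuousAt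
  have h4 : bet p q M m = fun t => Sc p q M m t - Sc p q M (m + 1) t := rfl
  rw [h4]
  exact h2.sub h3

private theorem KaA_expD (c t : ℝ) :
    HasDerivAt (fun s => Real.exp (c * s)) (Real.exp (c * t) * c) t := by
  have h := ((hasDerivAt_id t).const_mul c).exp
  simpa using h

theorem kap_hasDeriv (H : Hyp p q a w) {m : ℕ} (h1 : 1 ≤ m) (hm : m < M) (t : ℝ) :
    HasDerivAt (kap p q a M m) (-(lm p q a m) * kap p q a M m t + bet p q M m t) t := by
  have hb := KaA_bet_cont H h1 hm
  have hc : Continuous fun r => Real.exp (lm p q a m * r) * bet p q M m r := by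
    have h5 : Continuous fun r : ℝ => Real.exp (lm p q a m * r) := by fun_prop
    exact h5.mul hb
  have h2 : HasDerivAt (fun s => ∫ r in (0 : ℝ)..s, Real.exp (lm p q a m * r) * bet p q M m r)
      (Real.exp (lm p q a m * t) * bet p q M m t) t :=
    intervalIntegral.integral_hasDerivAt_right (hc.intervalIntegrable _ _)
      (hc.stronglyMeasurableAtFilter _ _) hc.continuousAt
  have h3 := KaA_expD (-(lm p q a m)) t
  have h4 := h3.mul h2
  have h6 : kap p q a M m = (fun s => Real.exp (-(lm p q a m) * s)) *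
      (fun s => ∫ r in (0 : ℝ)..s, Real.exp (lm p q a m * r) * bet p q M m r) := by
    funext s
    rfl
  have h7 : Real.exp (-(lm p q a m) * t) * Real.exp (lm p q a m * t) = 1 := by
    rw [← Real.exp_add]
    have : -(lm p q a m) * t + lm p q a m * t = 0 := by ring
    rw [this, Real.exp_zero]
  rw [h6]
  refine h4.congr_deriv ?_
  simp only [Pi.mul_apply]
  linear_combination (bet p q M m t) * h7

theorem kap_zero (p q a : ℝ) (M m : ℕ) : kap p q a M m 0 = 0 := by
  unfold kap
  simp

theorem kap_nonneg (H : Hyp p q a w) {m : ℕ} (h1 : 1 ≤ m) (hm : m < M) {t : ℝ} (ht : 0 ≤ t) :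
    0 ≤ kap p q a M m t := by
  refine compare (c := lm p q a m) (fun s => kap_hasDeriv H h1 hm s) (fun s hs => ?_)
    (by rw [kap_zero]) ht
  have := bet_nonneg H h1 hm.le hs
  linarith

theorem kap_le (H : Hyp p q a w) {m : ℕ} (h1 : 1 ≤ m) (hm : m < M) {t : ℝ} (ht : 0 ≤ t) :
    kap p q a M m t ≤
      p / (p - q) * Real.exp (-((m : ℝ) * p) * t) * (t - (1 - Real.exp (-p * t)) / p) := by
  have hp := H.hp
  have hpq := H.pq
  have hC : 0 ≤ p / (p - q) := by positivity
  have hmp : (m : ℝ) * p ≤ lm p q a m := H.lm_ge hm.le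
  have hD : ∀ s, HasDerivAt (fun s => p / (p - q) * Real.exp (-((m : ℝ) * p) * s) *
      (s - (1 - Real.exp (-p * s)) / p) - kap p q a M m s)
      ((p / (p - q) * (Real.exp (-((m : ℝ) * p) * s) * (-((m : ℝ) * p)))) *
        (s - (1 - Real.exp (-p * s)) / p) +
        p / (p - q) * Real.exp (-((m : ℝ) * p) * s) *
          (1 - (0 - Real.exp (-p * s) * (-p)) / p) -
        (-(lm p q a m) * kap p q a M m s + bet p q M m s)) s := by
    intro s
    have e1 := (KaA_expD (-((m : ℝ) * p)) s).const_mul (p / (p - q))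
    have e2 := ((hasDerivAt_const s (1 : ℝ)).sub (KaA_expD (-p) s)).div_const p
    have e3 := (hasDerivAt_id s).sub e2
    exact (e1.mul e3).sub (kap_hasDeriv H h1 hm s)
  have key := compare (c := lm p q a m) hD (fun s hs => ?_) (by rw [kap_zero]; simp) ht
  · linarith
  · have hb := bet_upper H h1 hm hs
    have hX : 0 ≤ s - (1 - Real.exp (-p * s)) / p := by
      have h9 := Real.add_one_le_exp (-p * s)
      rw [sub_nonneg, div_le_iff₀ hp]
      linarith
    have hE : 0 < Real.exp (-((m : ℝ) * p) * s) := Real.exp_pos _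
    have h10 : 0 ≤ p / (p - q) * Real.exp (-((m : ℝ) * p) * s) *
        (s - (1 - Real.exp (-p * s)) / p) := by positivity
    have h11 : 0 ≤ (lm p q a m - (m : ℝ) * p) * (p / (p - q) * Real.exp (-((m : ℝ) * p) * s) *
        (s - (1 - Real.exp (-p * s)) / p)) := mul_nonneg (by linarith) h10
    have h12 : (1 - (0 - Real.exp (-p * s) * (-p)) / p) = 1 - Real.exp (-p * s) := by
      field_simp
      ring
    rw [h12]
    nlinarith [h11, hb]

end Pool.Agent.H68.BD
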