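import Pool.Agent.H68.BD.Bas
import Pool.Agent.H68.BD.KaA
import Pool.Agent.H68.BD.PaE

set_option autoImplicit false

/-!
# Module KaB: comparison of kap with bet 2

Put `x = p t`, `v = 1 - exp (-x)`, `r = q/p ≤ 1/10`. By `kap_le` and `pade2`: `kap ≤ p/(p-q) exp (-m x) (1/p) (x/2) exp (x/6) v`. By
`bet_lower` (`m = 2`): `bet 2 t ≥ p/(p+q) exp (-2(1+r) x) v` (`1 - exp (-(p+q) t) ≥ v`). So it suffices that
`p/(p-q) (x/2) exp (-(m - 1/6) x) ≤ 5/(4(5m-12)) p/(p+q) exp (-2(1+r)x)`, that is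
`(p+q)/(p-q) (x/2) exp (-(m - 2 - 2r - 1/6) x) ≤ 5/(4(5m-12))`. Here `(p+q)/(p-q) ≤ 11/9` and `m - 2 - 2r - 1/6 ≥ m - 71/30 > 0`, and
`xexp` gives `x exp (-(m-71/30) x) ≤ 10/27/(m - 71/30)`; finally `11/18 * 10/27 < 1/4 = 5/20` and `m - 71/30 > m - 12/5`, so
`11/18 * 10/27/(m - 71/30) ≤ 1/(4(m - 12/5)) = 5/(4(5m-12))`.
-/

open Finset

namespace Pool.Agent.H68.BD

open Pool.Agent.H78.Bass

variable {M : ℕ} {p q a : ℝ} {w : Fin M → Fin M → ℝ}

private theorem KaB_real {p q m t : ℝ} (hp : 0 < p) (hq : 0 < q) (hpq : 10 * q ≤ p) (hm : 3 ≤ m)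
    (ht : 0 ≤ t) :
    p / (p - q) * Real.exp (-(m * p) * t) * (t - (1 - Real.exp (-p * t)) / p) ≤
      5 / (4 * (5 * m - 12)) / p * (p / (p + q) * Real.exp (-(2 * (p + q)) * t) *
        (1 - Real.exp (-(p + q) * t))) := by
  have hd : 0 < p - q := by linarith
  have hs : 0 < p + q := by linarith
  have hm12 : 0 < 5 * m - 12 := by linarith
  obtain ⟨x, hx⟩ : ∃ x, x = p * t := ⟨_, rfl⟩
  have hx0 : 0 ≤ x := by rw [hx]; positivity
  have hqt : q * t ≤ x / 10 := by
    rw [hx]
    nlinarith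
  have hqt0 : 0 ≤ q * t := by positivity
  -- v
  have hv0 : 0 ≤ 1 - Real.exp (-x) := by
    have : Real.exp (-x) ≤ 1 := Real.exp_le_one_iff.2 (by linarith)
    linarith
  have e0 : -p * t = -x := by rw [hx]; ring
  have e1 : t - (1 - Real.exp (-x)) / p = (x - (1 - Real.exp (-x))) / p := by
    rw [hx]
    field_simp
  have h1 : t - (1 - Real.exp (-x)) / p ≤
      x / 2 * Real.exp (x / 6) * (1 - Real.exp (-x)) / p := by
    rw [e1]
    exact div_le_div_of_nonneg_right (pade2 hx0) hp.le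
  have h2 : 1 - Real.exp (-x) ≤ 1 - Real.exp (-(p + q) * t) := by
    have : Real.exp (-(p + q) * t) ≤ Real.exp (-x) := by
      apply Real.exp_le_exp.2
      rw [hx]
      nlinarith
    linarith
  have h3 : Real.exp (-(11 / 5) * x) ≤ Real.exp (-(2 * (p + q)) * t) := by
    apply Real.exp_le_exp.2
    have : -(2 * (p + q)) * t = -(2 * x) - 2 * (q * t) := by rw [hx]; ring
    rw [this]
    linarith
  have h4 : p / (p - q) ≤ 11 / 9 * (p / (p + q)) := by
    rw [div_le_iff₀ hd]
    have : 11 / 9 * (p / (p + q)) * (p - q) = p * (11 * (p - q) / (9 * (p + q))) := by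
      field_simp
    rw [this]
    have h : 1 ≤ 11 * (p - q) / (9 * (p + q)) := by
      rw [le_div_iff₀ (by positivity)]
      linarith
    nlinarith
  obtain ⟨c, hc⟩ : ∃ c, c = m - 71 / 30 := ⟨_, rfl⟩
  have hc0 : 0 < c := by rw [hc]; linarith
  have h5 := xexp hc0 hx0
  have h6 : 11 / 9 * (1 / 2) * (10 / 27 / c) ≤ 5 / (4 * (5 * m - 12)) := by
    have h7 : 11 / 9 * (1 / 2) * (10 / 27 / c) = 110 / (486 * c) := by
      field_simp
      norm_num
    rw [h7, div_le_div_iff₀ (by positivity) (by positivity)]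
    rw [hc]
    nlinarith
  have hE : Real.exp (-(m * p) * t) * Real.exp (x / 6) =
      Real.exp (-c * x) * Real.exp (-(11 / 5) * x) := by
    rw [← Real.exp_add, ← Real.exp_add]
    congr 1
    rw [hc, hx]
    ring
  have hP : 0 ≤ p / (p + q) := by positivity
  have hP' : 0 ≤ p / (p - q) := by positivity
  rw [e0]
  calc p / (p - q) * Real.exp (-(m * p) * t) * (t - (1 - Real.exp (-x)) / p)
      ≤ p / (p - q) * Real.exp (-(m * p) * t) *
          (x / 2 * Real.exp (x / 6) * (1 - Real.exp (-x)) / p) := by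
        apply mul_le_mul_of_nonneg_left h1
        positivity
    _ = p / (p - q) * (1 / 2) * (x * (Real.exp (-(m * p) * t) * Real.exp (x / 6))) *
          (1 - Real.exp (-x)) / p := by ring
    _ = p / (p - q) * (1 / 2) * (x * Real.exp (-c * x)) * (Real.exp (-(11 / 5) * x) *
          (1 - Real.exp (-x))) / p := by rw [hE]; ring
    _ ≤ (11 / 9 * (p / (p + q))) * (1 / 2) * (10 / 27 / c) * (Real.exp (-(2 * (p + q)) * t) *
          (1 - Real.exp (-(p + q) * t))) / p := by
        apply div_le_div_of_nonneg_right _ hp.le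
        apply mul_le_mul
        · apply mul_le_mul
          · exact mul_le_mul_of_nonneg_right h4 (by norm_num)
          · exact h5
          · positivity
          · positivity
        · apply mul_le_mul h3 h2 hv0 (Real.exp_pos _).le
        · positivity
        · positivity
    _ = (11 / 9 * (1 / 2) * (10 / 27 / c)) * (p / (p + q) * Real.exp (-(2 * (p + q)) * t) *
          (1 - Real.exp (-(p + q) * t)) / p) := by ring
    _ ≤ 5 / (4 * (5 * m - 12)) * (p / (p + q) * Real.exp (-(2 * (p + q)) * t) *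
          (1 - Real.exp (-(p + q) * t)) / p) := by
        apply mul_le_mul_of_nonneg_right h6
        have : 0 ≤ 1 - Real.exp (-(p + q) * t) := le_trans hv0 h2
        positivity
    _ = 5 / (4 * (5 * m - 12)) / p * (p / (p + q) * Real.exp (-(2 * (p + q)) * t) *
        (1 - Real.exp (-(p + q) * t))) := by ring

theorem kap_bet (H : Hyp p q a w) {m : ℕ} (h3 : 3 ≤ m) (hm : m < M) {t : ℝ} (ht : 0 ≤ t) :
    kap p q a M m t ≤ 5 / (4 * (5 * (m : ℝ) - 12)) / p * bet p q M 2 t := by
  have h3' : (3 : ℝ) ≤ (m : ℝ) := by exact_mod_cast h3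
  have h1 := kap_le H (m := m) (by omega) hm ht
  have h2 := bet_lower H (m := 2) (by norm_num) (by omega) ht
  have h4 := KaB_real H.hp H.hq H.hpq h3' ht
  have hp := H.hp
  have h5 : 0 ≤ 5 / (4 * (5 * (m : ℝ) - 12)) / p := by
    have : 0 < 5 * (m : ℝ) - 12 := by linarith
    positivity
  refine h1.trans (h4.trans (mul_le_mul_of_nonneg_left ?_ h5))
  simpa using h2

end Pool.Agent.H68.BD
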