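import Pool.Agent.H68.BD.Bas

set_option autoImplicit false

/-!
# Module NuB: numbers, the sum

`term m = (m-1) q wm m * (5/(4(5m-12))/p) * bb (m-1)`. `m = 3`: `2 q * 6 a * 5/(12 p) * 3/8/a^2 = (15/8) (q/p)/a * (1/2) * 2`, i.e. `term 3 * wm 2 = 15/4 (q/p) ≤ 3/8`.
`m ≥ 4`: `term m * wm 2 = m (m-1)^2 (q/p)^2 (9/2)/(5m-12) (7/20)^(m-4) ≤ (9/2)/100 * m (m-1)^2/(5m-12) (7/20)^(m-4)`; this is `≤ (81/400) (1/2)^(m-4)` by induction:
`m = 4`: `(9/200) * 36/8 = 81/400`; step: `(m+1) m^2 (5m-12) (7/20) ≤ (1/2) m (m-1)^2 (5m-7)` for `m ≥ 4` (polynomial inequality: put `m = 4 + n`, all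
coefficients are positive). Sum of the geometric series: `≤ 3/8 + 81/200 = 39/50 ≤ 4/5`. A convenient form: show by induction on `N ≥ 3`
`∑ m ∈ Icc 3 N, term m * wm 2 ≤ 39/50 - (81/200) (1/2)^(N-3)` (for `N = 3` the right side is `3/8`), `Finset.sum_Icc_succ_top`; for `M = 3` the sum is empty.
-/

open Finset

namespace Pool.Agent.H68.BD

open Pool.Agent.H78.Bass

variable {M : ℕ} {p q a : ℝ} {w : Fin M → Fin M → ℝ}

private lemma NuB_poly (n : ℕ) :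
    ((n : ℝ) + 4) * ((n : ℝ) + 3) ^ 2 * (7 / 20 : ℝ) ^ n ≤
      9 / 2 * (1 / 2 : ℝ) ^ n * (5 * (n : ℝ) + 8) := by
  induction n with
  | zero => norm_num
  | succ n ih =>
    have hn : (0 : ℝ) ≤ (n : ℝ) := Nat.cast_nonneg n
    have h8 : (0 : ℝ) < 5 * (n : ℝ) + 8 := by linarith
    have hk : ((n : ℝ) + 5) * ((n : ℝ) + 4) * (7 / 20) * (5 * (n : ℝ) + 8) ≤
        1 / 2 * ((n : ℝ) + 3) ^ 2 * (5 * (n : ℝ) + 13) := by
      nlinarith [mul_nonneg hn hn, mul_nonneg (mul_nonneg hn hn) hn]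
    have hp7 : (0 : ℝ) < (7 / 20 : ℝ) ^ n := by positivity
    have hp2 : (0 : ℝ) < (1 / 2 : ℝ) ^ n := by positivity
    have h1 : (((n : ℝ) + 5) * ((n : ℝ) + 4) ^ 2 * (7 / 20)) * (5 * (n : ℝ) + 8) *
        (7 / 20 : ℝ) ^ n ≤
        (1 / 2 * (5 * (n : ℝ) + 13)) * (((n : ℝ) + 4) * ((n : ℝ) + 3) ^ 2 * (7 / 20 : ℝ) ^ n) := by
      have h2 := mul_le_mul_of_nonneg_right hk
        (mul_nonneg (by linarith : (0 : ℝ) ≤ (n : ℝ) + 4) hp7.le)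
      nlinarith [h2]
    have h3 : (1 / 2 * (5 * (n : ℝ) + 13)) * (((n : ℝ) + 4) * ((n : ℝ) + 3) ^ 2 *
        (7 / 20 : ℝ) ^ n) ≤
        (1 / 2 * (5 * (n : ℝ) + 13)) * (9 / 2 * (1 / 2 : ℝ) ^ n * (5 * (n : ℝ) + 8)) :=
      mul_le_mul_of_nonneg_left ih (by linarith)
    have h4 := h1.trans h3
    push_cast
    rw [pow_succ, pow_succ]
    have h5 : (((n : ℝ) + 1 + 4) * ((n : ℝ) + 1 + 3) ^ 2 * ((7 / 20 : ℝ) ^ n * (7 / 20))) *
        (5 * (n : ℝ) + 8) ≤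
        (9 / 2 * ((1 / 2 : ℝ) ^ n * (1 / 2)) * (5 * ((n : ℝ) + 1) + 8)) * (5 * (n : ℝ) + 8) := by
      nlinarith [h4]
    exact le_of_mul_le_mul_right h5 h8

private lemma NuB_three (H : Hyp p q a w) :
    (((3 : ℕ) : ℝ) - 1) * q * wm a 3 * (5 / (4 * (5 * ((3 : ℕ) : ℝ) - 12)) / p) *
      bb p q a (3 - 1) * wm a 2 ≤ 3 / 8 := by
  have ha := H.a_pos
  have hp := H.hp
  have hq := H.hq
  have hpq := H.hpq
  have e : (((3 : ℕ) : ℝ) - 1) * q * wm a 3 * (5 / (4 * (5 * ((3 : ℕ) : ℝ) - 12)) / p) *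
      bb p q a (3 - 1) * wm a 2 = 15 / 4 * (q / p) := by
    have hb : bb p q a (3 - 1) = 3 / 8 / a ^ 2 := by simp [bb]
    rw [hb, wm_two, wm_three]
    push_cast
    field_simp
    ring
  rw [e]
  have h : q / p ≤ 1 / 10 := by
    rw [div_le_div_iff₀ hp (by norm_num)]
    linarith
  linarith

private lemma NuB_four (H : Hyp p q a w) (n : ℕ) :
    (((n + 4 : ℕ) : ℝ) - 1) * q * wm a (n + 4) *
      (5 / (4 * (5 * ((n + 4 : ℕ) : ℝ) - 12)) / p) *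
      bb p q a (n + 4 - 1) * wm a 2 ≤ 81 / 400 * (1 / 2 : ℝ) ^ n := by
  have ha := H.a_pos
  have hp := H.hp
  have hq := H.hq
  have hpq := H.hpq
  have hn : (0 : ℝ) ≤ (n : ℝ) := Nat.cast_nonneg n
  have h8 : (0 : ℝ) < 5 * (n : ℝ) + 8 := by linarith
  have hb : bb p q a (n + 4 - 1) = 9 / 5 * (q / (a ^ 2 * p)) * (7 / 20) ^ n := by
    have h1 : n + 4 - 1 = n + 3 := by omega
    rw [h1]
    unfold bb
    have h2 : ¬ (n + 3 = 2) := by omega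
    rw [if_neg h2]
    have h3 : n + 3 - 3 = n := by omega
    rw [h3]
  have e : (((n + 4 : ℕ) : ℝ) - 1) * q * wm a (n + 4) *
      (5 / (4 * (5 * ((n + 4 : ℕ) : ℝ) - 12)) / p) *
      bb p q a (n + 4 - 1) * wm a 2 =
      9 / 2 * (q / p) ^ 2 * (((n : ℝ) + 4) * ((n : ℝ) + 3) ^ 2 * (7 / 20 : ℝ) ^ n) /
        (5 * (n : ℝ) + 8) := by
    rw [hb, wm_two]
    unfold wm
    push_cast
    have h12 : 5 * ((n : ℝ) + 4) - 12 = 5 * (n : ℝ) + 8 := by ring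
    rw [h12]
    field_simp
    ring
  rw [e, div_le_iff₀ h8]
  have h := NuB_poly n
  have hr : q / p ≤ 1 / 10 := by
    rw [div_le_div_iff₀ hp (by norm_num)]
    linarith
  have hr0 : 0 ≤ q / p := by positivity
  have hr2 : (q / p) ^ 2 ≤ 1 / 100 := by nlinarith
  have hpos : 0 ≤ ((n : ℝ) + 4) * ((n : ℝ) + 3) ^ 2 * (7 / 20 : ℝ) ^ n := by positivity
  calc 9 / 2 * (q / p) ^ 2 * (((n : ℝ) + 4) * ((n : ℝ) + 3) ^ 2 * (7 / 20 : ℝ) ^ n)
      ≤ 9 / 2 * (1 / 100) * (((n : ℝ) + 4) * ((n : ℝ) + 3) ^ 2 * (7 / 20 : ℝ) ^ n) := by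
        apply mul_le_mul_of_nonneg_right _ hpos
        linarith
    _ ≤ 9 / 2 * (1 / 100) * (9 / 2 * (1 / 2 : ℝ) ^ n * (5 * (n : ℝ) + 8)) := by
        apply mul_le_mul_of_nonneg_left h (by norm_num)
    _ = 81 / 400 * (1 / 2 : ℝ) ^ n * (5 * (n : ℝ) + 8) := by ring

private lemma NuB_sum (H : Hyp p q a w) (n : ℕ) :
    (∑ m ∈ Icc 3 (n + 3), ((m : ℝ) - 1) * q * wm a m * (5 / (4 * (5 * (m : ℝ) - 12)) / p) *
      bb p q a (m - 1)) * wm a 2 ≤ 39 / 50 - 81 / 200 * (1 / 2 : ℝ) ^ n := by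
  induction n with
  | zero =>
    have h := NuB_three H
    simp only [Nat.zero_add, Icc_self, sum_singleton, pow_zero]
    refine h.trans ?_
    norm_num
  | succ n ih =>
    have h := NuB_four H n
    have e : n + 1 + 3 = (n + 3) + 1 := by omega
    rw [e, sum_Icc_succ_top (by omega), add_mul]
    have e2 : n + 3 + 1 = n + 4 := by omega
    rw [e2]
    have h3 := add_le_add ih h
    refine h3.trans ?_
    rw [pow_succ]
    nlinarith [pow_pos (show (0 : ℝ) < 1 / 2 by norm_num) n]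

theorem num_sum (H : Hyp p q a w) :
    ∑ m ∈ Icc 3 (M - 1), ((m : ℝ) - 1) * q * wm a m * (5 / (4 * (5 * (m : ℝ) - 12)) / p) *
      bb p q a (m - 1) ≤ 4 / 5 / wm a 2 := by
  have hw : 0 < wm a 2 := H.wm_pos le_rfl
  rw [le_div_iff₀ hw]
  by_cases hM : M = 3
  · subst hM
    simp
    norm_num
  · have h3 := H.hM
    obtain ⟨n, hn⟩ : ∃ n, M - 1 = n + 3 := ⟨M - 4, by omega⟩
    rw [hn]
    refine (NuB_sum H n).trans ?_
    have := pow_pos (show (0 : ℝ) < 1 / 2 by norm_num) n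
    linarith

end Pool.Agent.H68.BD
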