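import Pool.Agent.H68.BD.Bas
import Pool.Agent.H68.BD.MuA
import Pool.Agent.H68.BD.CnA

set_option autoImplicit false

/-!
# Module SvD: duality

`sv Ω t` is the probability that no element of `Ω` is an adopter. `sv_hasDeriv`: `ex_hasDeriv` and the identity of functions
`genF p w 1_Ω X = ∑ B, Km Ω B * 1_B X` with `1_B X = if Disjoint X B then 1 else 0`. If `X` meets `Ω` then both sides are `0`
(for `j ∉ X` also `insert j X` meets `Ω`; if `X` meets `Ω` it meets `insert k Ω`). If `X` and `Ω` are disjoint: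
`genF = - ∑ j ∈ Ω, rate p w X j = - |Ω| p - ∑ j ∈ Ω, ∑ k ∈ X, w k j = - |Ω| p - ∑ k ∈ X, qin w k Ω`, and the right side is
`∑ k ∈ Ωᶜ, k ∉ X, qin w k Ω - |Ω| (p+q) + wt w Ω = (|Ω| q - wt w Ω - ∑ k ∈ X, qin w k Ω) - |Ω| (p+q) + wt w Ω` (`qin_compl`,
`X ⊆ Ωᶜ`). `sv_zero`: `ex_zero`.
`dual`: `Φ s = ∑ B, mu s B * sv B (t - s)` has derivative zero: by `mu' s B = ∑ A, mu s A * Km A B` (this form of the equation
is inside `mu_hasDeriv`: `∑ A, mu s A * Km A B = -(..) mu + phi`; prove it again here as a private lemma, or rewrite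
with the definition of `Km`) and `sv' A = ∑ B, Km A B * sv B`. `Φ 0 = (1/M) ∑ j, sv {j} t` (`mu_zero`) `= (1/M) ∑ Y, law Y (M - |Y|)
= 1 - level` (`law_sum`), `Φ t = ∑ B, mu t B` (`sv_zero`).
-/

open Finset

namespace Pool.Agent.H68.BD

open Pool.Agent.H78.Bass

variable {M : ℕ} {p q a : ℝ} {w : Fin M → Fin M → ℝ}

/-- probability that no element of `Ω` is an adopter -/
noncomputable def sv (p : ℝ) (w : Fin M → Fin M → ℝ) (Ω : Finset (Fin M)) (t : ℝ) : ℝ :=
  ex (fun _ => p) w (fun X => if Disjoint X Ω then 1 else 0) t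

/-- multiplication by the generator of the killed backward cluster -/
private theorem svd_Km_mul (p q : ℝ) (w : Fin M → Fin M → ℝ) (Ω : Finset (Fin M))
    (φ : Finset (Fin M) → ℝ) :
    ∑ B, Km p q w Ω B * φ B = (∑ k ∈ Ωᶜ, qin w k Ω * φ (insert k Ω)) -
      ((Ω.card : ℝ) * (p + q) - wt w Ω) * φ Ω := by
  unfold Km
  simp_rw [sub_mul, Finset.sum_sub_distrib, Finset.sum_mul]
  congr 1
  · rw [Finset.sum_comm]
    refine Finset.sum_congr rfl fun k _ => ?_
    simp
  · simp

private theorem svd_key (hw : IsHomogeneous q w) (p : ℝ) (Ω X : Finset (Fin M)) :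
    genF (fun _ => p) w (fun X => if Disjoint X Ω then 1 else 0) X =
      ∑ B, Km p q w Ω B * (if Disjoint X B then 1 else 0) := by
  rw [svd_Km_mul]
  unfold genF
  by_cases h : Disjoint X Ω
  · have hΩ : Ω ⊆ Xᶜ := by
      intro x hx
      rw [Finset.mem_compl]
      intro hx'
      exact (Finset.disjoint_left.1 h hx') hx
    have hX : X ⊆ Ωᶜ := by
      intro x hx
      rw [Finset.mem_compl]
      intro hx'
      exact (Finset.disjoint_left.1 h hx) hx'
    have e1 : ∑ j ∈ Xᶜ, rate (fun _ => p) w X j *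
        ((if Disjoint (insert j X) Ω then (1 : ℝ) else 0) - (if Disjoint X Ω then 1 else 0)) =
        - ∑ j ∈ Ω, rate (fun _ => p) w X j := by
      rw [← Finset.sum_neg_distrib, ← Finset.sum_subset hΩ]
      · refine Finset.sum_congr rfl fun j hj => ?_
        have h1 : ¬ Disjoint (insert j X) Ω := by
          rw [Finset.disjoint_insert_left]
          exact fun h' => h'.1 hj
        rw [if_neg h1, if_pos h]
        ring
      · intro j _ hj
        have h1 : Disjoint (insert j X) Ω := by
          rw [Finset.disjoint_insert_left]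
          exact ⟨hj, h⟩
        rw [if_pos h1, if_pos h]
        ring
    have e2 : ∑ k ∈ Ωᶜ, qin w k Ω * (if Disjoint X (insert k Ω) then (1 : ℝ) else 0) =
        ∑ k ∈ Ωᶜ, qin w k Ω - ∑ k ∈ X, qin w k Ω := by
      rw [← Finset.sum_sdiff hX (f := fun k => qin w k Ω), add_sub_cancel_right,
        ← Finset.sum_sdiff hX]
      have h0 : ∑ k ∈ X, qin w k Ω * (if Disjoint X (insert k Ω) then (1 : ℝ) else 0) = 0 := by
        refine Finset.sum_eq_zero fun k hk => ?_
        have h1 : ¬ Disjoint X (insert k Ω) := by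
          rw [Finset.disjoint_insert_right]
          exact fun h' => h'.1 hk
        rw [if_neg h1, mul_zero]
      rw [h0, add_zero]
      refine Finset.sum_congr rfl fun k hk => ?_
      have h1 : Disjoint X (insert k Ω) := by
        rw [Finset.disjoint_insert_right]
        exact ⟨(Finset.mem_sdiff.1 hk).2, h⟩
      rw [if_pos h1, mul_one]
    have e3 : ∑ j ∈ Ω, rate (fun _ => p) w X j = (Ω.card : ℝ) * p + ∑ k ∈ X, qin w k Ω := by
      unfold rate qin
      rw [Finset.sum_add_distrib, Finset.sum_const, nsmul_eq_mul, Finset.sum_comm]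
    rw [e1, e2, e3, qin_compl hw, if_pos h]
    ring
  · have h1 : ∀ j, ¬ Disjoint (insert j X) Ω := fun j h' =>
      h (Finset.disjoint_of_subset_left (Finset.subset_insert _ _) h')
    have h2 : ∀ k, ¬ Disjoint X (insert k Ω) := fun j h' =>
      h (Finset.disjoint_of_subset_right (Finset.subset_insert _ _) h')
    simp [h, h1, h2]

theorem sv_hasDeriv (hw : IsHomogeneous q w) (p : ℝ) (Ω : Finset (Fin M)) (t : ℝ) :
    HasDerivAt (sv p w Ω) (∑ B, Km p q w Ω B * sv p w B t) t := by
  have h := ex_hasDeriv (fun _ => p) w (fun X => if Disjoint X Ω then 1 else 0) t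
  have e : ex (fun _ => p) w (genF (fun _ => p) w (fun X => if Disjoint X Ω then 1 else 0)) t =
      ∑ B, Km p q w Ω B * sv p w B t := by
    have e1 : genF (fun _ => p) w (fun X => if Disjoint X Ω then 1 else 0) =
        fun X => ∑ B, Km p q w Ω B * (if Disjoint X B then 1 else 0) :=
      funext fun X => svd_key hw p Ω X
    rw [e1]
    unfold sv ex
    simp_rw [Finset.mul_sum]
    rw [Finset.sum_comm]
    refine Finset.sum_congr rfl fun B _ => Finset.sum_congr rfl fun Y _ => by ring
  rw [← e]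
  exact h

theorem sv_zero (p : ℝ) (w : Fin M → Fin M → ℝ) (Ω : Finset (Fin M)) : sv p w Ω 0 = 1 := by
  unfold sv
  rw [ex_zero]
  simp

section SvDgen
attribute [local instance] Matrix.linftyOpNormedRing Matrix.linftyOpNormedAlgebra

private theorem svd_exp_hasDeriv (K : Matrix (Finset (Fin M)) (Finset (Fin M)) ℝ) (t : ℝ)
    (A B : Finset (Fin M)) :
    HasDerivAt (fun s : ℝ => (NormedSpace.exp (s • K) :
      Matrix (Finset (Fin M)) (Finset (Fin M)) ℝ) A B)
      (∑ C, (NormedSpace.exp (t • K) : Matrix (Finset (Fin M)) (Finset (Fin M)) ℝ) A C * K C B)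
      t := by
  have h := hasDerivAt_exp_smul_const (𝕂 := ℝ) K t
  have h2 : HasDerivAt (fun s : ℝ => (NormedSpace.exp (s • K) :
      Matrix (Finset (Fin M)) (Finset (Fin M)) ℝ) A B)
      ((NormedSpace.exp (t • K) * K :
      Matrix (Finset (Fin M)) (Finset (Fin M)) ℝ) A B) t := by
    exact ((hasDerivAt_pi.1 (hasDerivAt_pi.1 h A)) B)
  simpa [Matrix.mul_apply] using h2

private theorem svd_exp_zero (K : Matrix (Finset (Fin M)) (Finset (Fin M)) ℝ)
    (A B : Finset (Fin M)) :
    (NormedSpace.exp ((0 : ℝ) • K) : Matrix (Finset (Fin M)) (Finset (Fin M)) ℝ) A B =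
      if A = B then 1 else 0 := by
  rw [zero_smul, NormedSpace.exp_zero, Matrix.one_apply]

end SvDgen

private theorem svd_mu_hasDeriv (p q : ℝ) (w : Fin M → Fin M → ℝ) (s : ℝ) (B : Finset (Fin M)) :
    HasDerivAt (fun r => mu p q w r B) (∑ A, mu p q w s A * Km p q w A B) s := by
  have h : HasDerivAt (fun r => mu p q w r B)
      ((∑ j : Fin M, ∑ C, (NormedSpace.exp (s • Km p q w) :
        Matrix (Finset (Fin M)) (Finset (Fin M)) ℝ) {j} C * Km p q w C B) / M) s :=
    (HasDerivAt.fun_sum fun j _ => svd_exp_hasDeriv (Km p q w) s {j} B).div_const _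
  have e : (∑ j : Fin M, ∑ C, (NormedSpace.exp (s • Km p q w) :
        Matrix (Finset (Fin M)) (Finset (Fin M)) ℝ) {j} C * Km p q w C B) / M =
      ∑ A, mu p q w s A * Km p q w A B := by
    unfold mu
    rw [Finset.sum_comm, Finset.sum_div]
    refine Finset.sum_congr rfl fun C _ => ?_
    rw [← Finset.sum_mul]
    ring
  rw [← e]
  exact h

theorem dual (hw : IsHomogeneous q w) (hM : 1 ≤ M) (p t : ℝ) :
    1 - level (fun _ => p) w t = ∑ B, mu p q w t B := by
  have hM' : (M : ℝ) ≠ 0 := by positivity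
  set Φ : ℝ → ℝ := fun s => ∑ B, mu p q w s B * sv p w B (t - s) with hΦ
  have hd : ∀ s, HasDerivAt Φ 0 s := by
    intro s
    have h1 : ∀ B : Finset (Fin M), HasDerivAt (fun r => mu p q w r B * sv p w B (t - r))
        ((∑ A, mu p q w s A * Km p q w A B) * sv p w B (t - s) +
          mu p q w s B * (-(∑ C, Km p q w B C * sv p w C (t - s)))) s := by
      intro B
      have ha := svd_mu_hasDeriv p q w s B
      have hb : HasDerivAt (fun r => sv p w B (t - r))
          (-(∑ C, Km p q w B C * sv p w C (t - s))) s := by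
        have hc := (sv_hasDeriv hw p B (t - s)).comp s ((hasDerivAt_id s).const_sub t)
        simp only [mul_neg, mul_one] at hc
        exact hc
      exact ha.mul hb
    have h2 : HasDerivAt Φ (∑ B, ((∑ A, mu p q w s A * Km p q w A B) * sv p w B (t - s) +
          mu p q w s B * (-(∑ C, Km p q w B C * sv p w C (t - s))))) s :=
      HasDerivAt.fun_sum fun B _ => h1 B
    have h3 : (∑ B, ((∑ A, mu p q w s A * Km p q w A B) * sv p w B (t - s) +
          mu p q w s B * (-(∑ C, Km p q w B C * sv p w C (t - s))))) = 0 := by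
      rw [Finset.sum_add_distrib]
      simp_rw [mul_neg, Finset.sum_neg_distrib, Finset.sum_mul, Finset.mul_sum]
      rw [Finset.sum_comm, add_neg_eq_zero]
      refine Finset.sum_congr rfl fun B _ => Finset.sum_congr rfl fun C _ => by ring
    rw [h3] at h2
    exact h2
  have hc : Φ 0 = Φ t :=
    is_const_of_deriv_eq_zero (fun s => (hd s).differentiableAt) (fun s => (hd s).deriv) 0 t
  have hΦt : Φ t = ∑ B, mu p q w t B := by
    simp only [hΦ, sub_self, sv_zero, mul_one]
  have hΦ0 : Φ 0 = (∑ j : Fin M, sv p w {j} t) / M := by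
    simp only [hΦ, sub_zero]
    unfold mu
    simp_rw [svd_exp_zero, div_mul_eq_mul_div]
    rw [← Finset.sum_div]
    congr 1
    simp_rw [Finset.sum_mul]
    rw [Finset.sum_comm]
    refine Finset.sum_congr rfl fun j _ => ?_
    simp
  have hs : ∑ j : Fin M, sv p w {j} t = ∑ Y, law (fun _ => p) w t Y * ((M : ℝ) - Y.card) := by
    unfold sv ex
    rw [Finset.sum_comm]
    refine Finset.sum_congr rfl fun Y _ => ?_
    rw [← Finset.mul_sum]
    congr 1
    have h1 : ∀ j : Fin M, (if Disjoint Y {j} then (1 : ℝ) else 0) = if j ∈ Y then 0 else 1 := by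
      intro j
      by_cases hj : j ∈ Y
      · rw [if_pos hj, if_neg (fun h' => (Finset.disjoint_singleton_right.1 h') hj)]
      · rw [if_neg hj, if_pos (Finset.disjoint_singleton_right.2 hj)]
    simp_rw [h1]
    have h2 : ∀ j : Fin M, (if j ∈ Y then (0 : ℝ) else 1) = 1 - if j ∈ Y then 1 else 0 := by
      intro j
      split_ifs <;> simp
    simp_rw [h2]
    rw [Finset.sum_sub_distrib]
    simp
  rw [← hΦt, ← hc, hΦ0, hs]
  unfold level
  simp_rw [mul_sub]
  rw [Finset.sum_sub_distrib, ← Finset.sum_mul, law_sum]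
  field_simp

end Pool.Agent.H68.BD
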