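import Pool.Agent.H68.BD.Bas
import Pool.Agent.H68.BD.LyB
import Pool.Agent.H68.BD.SvD

set_option autoImplicit false

/-!
# Module Fin: the theorem

`Sc_le`: `LL t` is monotone on `[0, t]` (`monotoneOn_of_deriv_nonneg`, `LL_hasDeriv`, `LL_deriv_ge` on the interior), `LL_zero`, `LL_end`. If `N2 > 0` the derivative is positive
on `(0, t)` (`bet_lower`: `bet 2 > 0` for positive time; `pp_pos`; `H.wm_pos`), `strictMonoOn_of_deriv_pos`.
`main_le`, `main_lt`: `M = 2`: every homogeneous network is balanced (`w 0 1 = w 1 0 = q`), `level_balanced`. `M ≥ 3`: `a = q/(M-1)`, `dual`, `Sc_level`. `N2 > 0` if some pair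
`{j, k}` has `w k j + w j k ≠ 2a`: its `exc` is `w k j + w j k - 2a`. `main_eq`: `level_balanced`, `balanced_exc`.
-/

open Finset

namespace Pool.Agent.H68.BD

open Pool.Agent.H78.Bass

variable {M : ℕ} {p q a : ℝ} {w : Fin M → Fin M → ℝ}

private theorem Fin_two (hw : IsHomogeneous q w) (hM : M = 2) :
    ∀ k j, k ≠ j → w k j + w j k = 2 * (q / ((M : ℝ) - 1)) := by
  subst hM
  have h0 := hw.sum 0
  have h1 := hw.sum 1
  rw [Fin.sum_univ_two] at h0 h1
  rw [hw.diag, zero_add] at h0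
  rw [hw.diag, add_zero] at h1
  have h2 : q / (((2 : ℕ) : ℝ) - 1) = q := by norm_num
  rw [h2]
  intro k j hkj
  fin_cases k <;> fin_cases j
  · exact absurd rfl hkj
  · show w 0 1 + w 1 0 = 2 * q
    linarith
  · show w 1 0 + w 0 1 = 2 * q
    linarith
  · exact absurd rfl hkj

private theorem Fin_hyp (hM : 3 ≤ M) (hq : 0 < q) (hpq : 10 * q ≤ p) (hw : IsHomogeneous q w) :
    Hyp p q (q / ((M : ℝ) - 1)) w := by
  refine ⟨hM, by linarith, hq, hpq, hw, ?_⟩
  have h : (3 : ℝ) ≤ (M : ℝ) := by exact_mod_cast hM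
  have h1 : (M : ℝ) - 1 ≠ 0 := by
    intro h0
    linarith
  field_simp

private theorem Fin_deriv_nonneg (H : Hyp p q a w) {t s : ℝ} (hs : 0 < s) (hst : s ≤ t) :
    0 ≤ 1 / 5 * bet p q M 2 (t - s) * (N2 a w / wm a 2 * pp p q a M 2 s) := by
  have h1 := bet_nonneg H (m := 2) (by omega) (by have := H.hM; omega) (sub_nonneg.2 hst)
  have h2 := pp_nonneg H (m := 2) (by omega) hs.le
  have h3 := H.N2_nonneg
  have h4 := H.wm_pos (m := 2) le_rfl
  positivity

theorem Sc_le (H : Hyp p q a w) {t : ℝ} (ht : 0 ≤ t) :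
    Sc p q M 1 t ≤ ∑ B, mu p q w t B := by
  have hmono : MonotoneOn (LL p q a w t) (Set.Icc 0 t) := by
    refine monotoneOn_of_deriv_nonneg (convex_Icc 0 t)
      (fun s _ => (LL_hasDeriv H t s).continuousAt.continuousWithinAt)
      (fun s _ => (LL_hasDeriv H t s).differentiableAt.differentiableWithinAt) ?_
    intro s hs
    rw [interior_Icc] at hs
    rw [(LL_hasDeriv H t s).deriv]
    exact le_trans (Fin_deriv_nonneg H hs.1 hs.2.le) (LL_deriv_ge H hs.1 hs.2.le)
  have h := hmono (Set.left_mem_Icc.2 ht) (Set.right_mem_Icc.2 ht) ht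
  rw [LL_zero H, LL_end H] at h
  exact h

theorem Sc_lt (H : Hyp p q a w) (hN : 0 < N2 a w) {t : ℝ} (ht : 0 < t) :
    Sc p q M 1 t < ∑ B, mu p q w t B := by
  have hmono : StrictMonoOn (LL p q a w t) (Set.Icc 0 t) := by
    refine strictMonoOn_of_deriv_pos (convex_Icc 0 t)
      (fun s _ => (LL_hasDeriv H t s).continuousAt.continuousWithinAt) ?_
    intro s hs
    rw [interior_Icc] at hs
    rw [(LL_hasDeriv H t s).deriv]
    refine lt_of_lt_of_le ?_ (LL_deriv_ge H hs.1 hs.2.le)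
    have hp := H.hp
    have hq := H.hq
    have hts : 0 < t - s := sub_pos.2 hs.2
    have h1 : 0 < bet p q M 2 (t - s) := by
      refine lt_of_lt_of_le ?_
        (bet_lower H (m := 2) (by omega) (by have := H.hM; omega) hts.le)
      have h5 : Real.exp (-(p + q) * (t - s)) < 1 := by
        rw [Real.exp_lt_one_iff]
        have : 0 < (p + q) * (t - s) := mul_pos (by linarith) hts
        linarith
      have h6 : 0 < 1 - Real.exp (-(p + q) * (t - s)) := by linarith
      have h7 : 0 < p + q := by linarith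
      positivity
    have h2 := pp_pos H (m := 2) (by omega) hs.1
    have h4 := H.wm_pos (m := 2) le_rfl
    positivity
  have h := hmono (Set.left_mem_Icc.2 ht.le) (Set.right_mem_Icc.2 ht.le) ht
  rw [LL_zero H, LL_end H] at h
  exact h

theorem main_eq (hM : 2 ≤ M) (hq : 0 < q) (hw : IsHomogeneous q w)
    (hb : ∀ k j, k ≠ j → w k j + w j k = 2 * (q / ((M : ℝ) - 1))) {t : ℝ} (ht : 0 ≤ t) :
    level (fun _ => p) w t = level (fun _ : Fin M => p) (completeW q) t :=
  level_balanced hM hq hw (balanced_exc hw.diag hb) ht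

theorem main_le (hM : 2 ≤ M) (hq : 0 < q) (hpq : 10 * q ≤ p) (hw : IsHomogeneous q w) {t : ℝ}
    (ht : 0 ≤ t) :
    level (fun _ => p) w t ≤ level (fun _ : Fin M => p) (completeW q) t := by
  rcases Nat.lt_or_ge M 3 with h3 | h3
  · exact (main_eq hM hq hw (Fin_two hw (by omega)) ht).le
  · have H := Fin_hyp h3 hq hpq hw
    have h1 := Sc_le H ht
    rw [← dual hw (by omega) p t, ← Sc_level p q t (by omega)] at h1
    linarith

private theorem Fin_N2 (hd : ∀ j, w j j = 0) {k j : Fin M} (hkj : k ≠ j)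
    (h : w k j + w j k ≠ 2 * a) : 0 < N2 a w := by
  have h1 : exc a w {k, j} = w k j + w j k - 2 * a := by
    rw [exc_eq, card_pair hkj, wm_two]
    unfold wt
    rw [sum_pair hkj, sum_pair hkj, sum_pair hkj, hd, hd]
    ring
  have h2 : ({k, j} : Finset (Fin M)) ∈ lev M 2 := mem_lev.2 (card_pair hkj)
  have h3 : 0 < exc a w {k, j} ^ 2 := by
    have : exc a w {k, j} ≠ 0 := by
      rw [h1]
      exact sub_ne_zero.2 h
    positivity
  unfold N2
  exact lt_of_lt_of_le h3 (single_le_sum (f := fun B => exc a w B ^ 2)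
    (fun B _ => sq_nonneg _) h2)

theorem main_lt (hM : 2 ≤ M) (hq : 0 < q) (hpq : 10 * q ≤ p) (hw : IsHomogeneous q w)
    (hne : ∃ k j, k ≠ j ∧ w k j + w j k ≠ 2 * (q / ((M : ℝ) - 1))) {t : ℝ} (ht : 0 < t) :
    level (fun _ => p) w t < level (fun _ : Fin M => p) (completeW q) t := by
  obtain ⟨k, j, hkj, hne⟩ := hne
  rcases Nat.lt_or_ge M 3 with h3 | h3
  · exact absurd (Fin_two hw (by omega) k j hkj) hne
  · have H := Fin_hyp h3 hq hpq hw
    have h1 := Sc_lt H (Fin_N2 hw.diag hkj hne) ht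
    rw [← dual hw (by omega) p t, ← Sc_level p q t (by omega)] at h1
    linarith

end Pool.Agent.H68.BD
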